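import Pool.Agent.H821.Rot.Sep

/-!
# Subgroups of countable index of a transitive group are almost transitive

Let `G` be a group of linear isometries of a real normed space of dimension at least two which acts
transitively on the unit sphere, and `H` a subgroup such that countably many cosets `H (g n)` cover
`G`. The distance to an orbit of `H` is a continuous function on the sphere with countably many
values, hence constant, so the orbits of `H` are dense.
-/

set_option autoImplicit false
set_option linter.unusedSectionVars false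
set_option linter.unusedVariables false

namespace Pool.Agent.H509.Rot

open TopologicalSpace Metric Filter Topology

variable {E : Type} [NormedAddCommGroup E] [NormedSpace ℝ E]

lemma countable_preconnected_const {s : Set E} (hs : IsPreconnected s) {φ : E → ℝ}
    (hφ : Continuous φ) (hc : (φ '' s).Countable) {x y : E} (hx : x ∈ s) (hy : y ∈ s) :
    φ x = φ y :=
  (hc.isTotallyDisconnected _ Set.Subset.rfl (hs.image φ hφ.continuousOn))
    (Set.mem_image_of_mem φ hx) (Set.mem_image_of_mem φ hy)

theorem almost_transitive (hrank : 1 < Module.rank ℝ E) (G H : Subgroup (E ≃ₗᵢ[ℝ] E))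
    (htr : ∀ x y : E, ‖x‖ = 1 → ‖y‖ = 1 → ∃ T ∈ G, T x = y)
    (g : ℕ → (E ≃ₗᵢ[ℝ] E)) (hg : ∀ T ∈ G, ∃ n, T * (g n)⁻¹ ∈ H)
    {x y : E} (hx : ‖x‖ = 1) (hy : ‖y‖ = 1) {ε : ℝ} (hε : 0 < ε) :
    ∃ T ∈ H, ‖T x - y‖ < ε := by
  set O : Set E := {z | ∃ T ∈ H, T x = z} with hO
  have hOne : O.Nonempty := ⟨x, 1, H.one_mem, rfl⟩
  have hinv : ∀ T ∈ H, ∀ z, infDist (T z) O = infDist z O := by
    intro T hT z
    have h1 : T '' O = O := by
      ext w
      constructor
      · rintro ⟨_, ⟨S, hS, rfl⟩, rfl⟩
        exact ⟨T * S, H.mul_mem hT hS, rfl⟩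
      · rintro ⟨S, hS, rfl⟩
        refine ⟨(T⁻¹ * S) x, ⟨T⁻¹ * S, H.mul_mem (H.inv_mem hT) hS, rfl⟩, ?_⟩
        show T (T⁻¹ (S x)) = S x
        exact T.apply_symm_apply (S x)
    conv_lhs => rw [← h1]
    exact infDist_image T.isometry
  have hcount : ((fun z => infDist z O) '' sphere (0 : E) 1).Countable := by
    refine (Set.countable_range fun n => infDist (g n x) O).mono ?_
    rintro _ ⟨z, hz, rfl⟩
    have hz1 : ‖z‖ = 1 := mem_sphere_zero_iff_norm.1 hz
    obtain ⟨T, hT, hTx⟩ := htr x z hx hz1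
    obtain ⟨n, hn⟩ := hg T hT
    refine ⟨n, ?_⟩
    show infDist (g n x) O = infDist z O
    have h2 : (T * (g n)⁻¹) (g n x) = z := by
      show T ((g n)⁻¹ (g n x)) = z
      have : (g n)⁻¹ (g n x) = x := (g n).symm_apply_apply x
      rw [this, hTx]
    rw [← hinv _ hn (g n x), h2]
  have hpc : IsPreconnected (sphere (0 : E) 1) := isPreconnected_sphere hrank 0 1
  have h3 : infDist y O = infDist x O :=
    countable_preconnected_const hpc (continuous_infDist_pt O) hcount
      (mem_sphere_zero_iff_norm.2 hy) (mem_sphere_zero_iff_norm.2 hx)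
  have h4 : infDist x O = 0 := infDist_zero_of_mem ⟨1, H.one_mem, rfl⟩
  have h5 : infDist y O < ε := by rw [h3, h4]; exact hε
  obtain ⟨_, ⟨T, hT, rfl⟩, h6⟩ := (infDist_lt_iff hOne).1 h5
  refine ⟨T, hT, ?_⟩
  rw [dist_eq_norm] at h6
  rw [norm_sub_rev]
  exact h6

end Pool.Agent.H509.Rot
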