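import Pool.Agent.H509.Rot.Almost

/-!
# The limits of `‖f + η n‖` for groups which are countable modulo compact operators
-/

set_option autoImplicit false
set_option linter.unusedSectionVars false
set_option linter.unusedVariables false

namespace Pool.Agent.H509.Rot

open TopologicalSpace Metric Filter Topology Pool.Agent.H821.Rot

variable {E : Type} [NormedAddCommGroup E] [NormedSpace ℝ E]

/-- composition with an isometry does not change the norm of a functional -/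
lemma norm_comp_op (T : E ≃ₗᵢ[ℝ] E) (h : StrongDual ℝ E) : ‖h.comp (op T)‖ = ‖h‖ := by
  apply le_antisymm
  · refine ContinuousLinearMap.opNorm_le_bound _ (norm_nonneg _) fun z => ?_
    show ‖h (T z)‖ ≤ _
    refine (h.le_opNorm _).trans ?_
    rw [T.norm_map]
  · refine ContinuousLinearMap.opNorm_le_bound _ (norm_nonneg _) fun z => ?_
    have h2 : h z = (h.comp (op T)) (T.symm z) := by
      show h z = h (T (T.symm z))
      rw [T.apply_symm_apply]
    rw [h2]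
    refine ((h.comp (op T)).le_opNorm _).trans ?_
    rw [T.symm.norm_map]

/-- moving a functional by an isometry of the form `1 + compact` -/
lemma eventually_move (η : ℕ → StrongDual ℝ E) {R : ℝ} (hR : ∀ i, ‖η i‖ ≤ R)
    (hw : ∀ y, Tendsto (fun i => η i y) atTop (𝓝 0)) {T : E ≃ₗᵢ[ℝ] E} (hT : T ∈ compactGroup E)
    (f : StrongDual ℝ E) {ε : ℝ} (hε : 0 < ε) :
    ∀ᶠ n in atTop, ‖f.comp (op T) + η n‖ ≤ ‖f + η n‖ + ε := by
  have h1 := compact_dual η hR hw (op T - 1) hT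
  filter_upwards [h1.eventually (gt_mem_nhds hε)] with n hn
  have h2 : f.comp (op T) + η n = (f + η n).comp (op T) - (η n).comp (op T - 1) := by
    ext z
    show f (T z) + η n z = (f (T z) + η n (T z)) - η n (T z - z)
    rw [map_sub]; ring
  rw [h2]
  refine (norm_sub_le _ _).trans ?_
  rw [norm_comp_op]
  linarith

/-- unit vectors which have a norming functional in a weak* closed set form a closed set -/
lemma isClosed_support (K : Set (DB E)) (hK : IsClosed K) :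
    IsClosed {x : E | ∃ f ∈ K, fn f x = 1} := by
  have hcont : Continuous fun p : E × DB E => fn p.2 p.1 := by
    refine continuous_prod_of_continuous_lipschitzWith (fun p : E × DB E => fn p.2 p.1) 1
      (fun a => fn_cont a) fun b => ?_
    refine LipschitzWith.of_dist_le_mul fun x y => ?_
    show dist (fn b x) (fn b y) ≤ _
    rw [dist_eq_norm, dist_eq_norm, ← map_sub, NNReal.coe_one]
    exact ((fn b).le_opNorm _).trans (mul_le_mul_of_nonneg_right (fn_norm b) (norm_nonneg _))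
  have hcl : IsClosed {p : E × DB E | p.2 ∈ K ∧ fn p.2 p.1 = 1} :=
    (hK.preimage continuous_snd).inter (isClosed_singleton.preimage hcont)
  have hm := isClosedMap_fst_of_compactSpace (X := E) (Y := DB E) _ hcl
  have heq : Prod.fst '' {p : E × DB E | p.2 ∈ K ∧ fn p.2 p.1 = 1} =
      {x : E | ∃ f ∈ K, fn f x = 1} := by
    ext x
    constructor
    · rintro ⟨⟨y, f⟩, ⟨h1, h2⟩, rfl⟩
      exact ⟨f, h1, h2⟩
    · rintro ⟨f, h1, h2⟩
      exact ⟨(x, f), ⟨h1, h2⟩, rfl⟩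
  rw [← heq]
  exact hm

lemma isClosed_bound (η : ℕ → StrongDual ℝ E) (N : ℕ) (s : ℝ) :
    IsClosed {f : DB E | ∀ n ≥ N, ‖fn f + η n‖ ≤ s} := by
  by_cases hs : 0 ≤ s
  · have h1 : {f : DB E | ∀ n ≥ N, ‖fn f + η n‖ ≤ s} =
        ⋂ n ≥ N, ⋂ w : E, {f : DB E | |fn f w + η n w| ≤ s * ‖w‖} := by
      ext f
      simp only [Set.mem_setOf_eq, Set.mem_iInter]
      refine forall₂_congr fun n hn => ?_
      rw [ContinuousLinearMap.opNorm_le_iff hs]
      rfl
    rw [h1]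
    refine isClosed_iInter fun n => isClosed_iInter fun _ => isClosed_iInter fun w => ?_
    exact isClosed_le (((fn_cont w).add continuous_const).abs) continuous_const
  · have h1 : {f : DB E | ∀ n ≥ N, ‖fn f + η n‖ ≤ s} = ∅ := by
      rw [Set.eq_empty_iff_forall_notMem]
      intro f hf
      exact hs ((norm_nonneg _).trans (hf N le_rfl))
    rw [h1]
    exact isClosed_empty

/-- The bound passes from one norm attaining functional to all others. -/
theorem le_const [CompleteSpace E] [SeparableSpace E] (hrank : 1 < Module.rank ℝ E)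
    (G : Subgroup (E ≃ₗᵢ[ℝ] E))
    (htr : ∀ x y : E, ‖x‖ = 1 → ‖y‖ = 1 → ∃ T ∈ G, T x = y)
    (g g' : ℕ → (E ≃ₗᵢ[ℝ] E)) (hg : ∀ T ∈ G, ∃ n, T * (g n)⁻¹ ∈ compactGroup E)
    (hg' : ∀ T ∈ G, ∃ n, (g' n)⁻¹ * T ∈ compactGroup E)
    (η : ℕ → StrongDual ℝ E) {R : ℝ} (hR : ∀ i, ‖η i‖ ≤ R)
    (hw : ∀ y, Tendsto (fun i => η i y) atTop (𝓝 0)) {r : ℝ} {x₀ : E} (hx₀ : ‖x₀‖ = 1)
    (f₀ : StrongDual ℝ E) (hf₀ : ‖f₀‖ = 1) (hfx₀ : f₀ x₀ = 1)
    (h0 : ∀ ε : ℝ, 0 < ε → ∀ᶠ n in atTop, ‖f₀ + η n‖ ≤ r + ε) {x : E} (hx : ‖x‖ = 1)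
    (f : StrongDual ℝ E) (hf : ‖f‖ = 1) (hfx : f x = 1) (ε : ℝ) (hε : 0 < ε) :
    ∀ᶠ n in atTop, ‖f + η n‖ ≤ r + ε := by
  have htr' : ∀ x y : E, ‖x‖ = 1 → ‖y‖ = 1 → ∃ T : E ≃ₗᵢ[ℝ] E, T x = y := fun x y hx hy => by
    obtain ⟨T, -, h⟩ := htr x y hx hy
    exact ⟨T, h⟩
  set C : ℕ → Set E := fun N => {x : E | ∃ f ∈ {f : DB E | ∀ n ≥ N, ‖fn f + η n‖ ≤ r + ε / 2},
    fn f x = 1} with hC
  have hCcl : ∀ N, IsClosed (C N) := fun N => isClosed_support _ (isClosed_bound η N _)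
  set A : ℕ × ℕ → Set (sphere (0 : E) 1) := fun p => {z | (g' p.1)⁻¹ (z : E) ∈ C p.2} with hA
  have hAcl : ∀ p, IsClosed (A p) := fun p =>
    (hCcl p.2).preimage (((g' p.1)⁻¹).continuous.comp continuous_subtype_val)
  have hU : ⋃ p, A p = Set.univ := by
    rw [Set.eq_univ_iff_forall]
    rintro ⟨z, hz⟩
    have hz1 : ‖z‖ = 1 := mem_sphere_zero_iff_norm.1 hz
    obtain ⟨T, hT, hTx⟩ := htr x₀ z hx₀ hz1
    obtain ⟨j, hj⟩ := hg' T hT
    set h : E ≃ₗᵢ[ℝ] E := (g' j)⁻¹ * T with hh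
    have hhx : h x₀ = (g' j)⁻¹ z := by
      show (g' j)⁻¹ (T x₀) = _
      rw [hTx]
    have hinv : h⁻¹ ∈ compactGroup E := (compactGroup E).inv_mem hj
    have h1 := (eventually_move η hR hw hinv f₀ (by positivity : (0 : ℝ) < ε / 4)).and
      (h0 (ε / 4) (by positivity))
    obtain ⟨N, hN⟩ := eventually_atTop.1 h1
    refine Set.mem_iUnion.2 ⟨(j, N), ?_⟩
    show (g' j)⁻¹ z ∈ C N
    refine ⟨mkDB (f₀.comp (op h⁻¹)) (by rw [norm_comp_op, hf₀]), fun n hn => ?_, ?_⟩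
    · rw [fn_mk]
      obtain ⟨h2, h3⟩ := hN n hn
      linarith
    · rw [fn_mk]
      show f₀ (h⁻¹ ((g' j)⁻¹ z)) = 1
      rw [← hhx]
      have : h⁻¹ (h x₀) = x₀ := h.symm_apply_apply x₀
      rw [this, hfx₀]
  have hcomp : CompleteSpace (sphere (0 : E) 1) := isClosed_sphere.completeSpace_coe
  have hne : Nonempty (sphere (0 : E) 1) := ⟨⟨x₀, mem_sphere_zero_iff_norm.2 hx₀⟩⟩
  obtain ⟨⟨j, N⟩, ⟨z, hz⟩⟩ := nonempty_interior_of_iUnion_of_closed hAcl hU
  obtain ⟨δ, hδ, hball⟩ := Metric.isOpen_iff.1 isOpen_interior z hz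
  have hz1 : ‖(z : E)‖ = 1 := mem_sphere_zero_iff_norm.1 z.2
  -- move `x` into this ball
  have hy1 : ‖(g' j)⁻¹ (z : E)‖ = 1 := by rw [LinearIsometryEquiv.norm_map, hz1]
  obtain ⟨T, hT, hTx⟩ := almost_transitive hrank G (compactGroup E) htr g hg hx hy1 hδ
  have hw1 : ‖g' j (T x)‖ = 1 := by
    rw [LinearIsometryEquiv.norm_map, LinearIsometryEquiv.norm_map, hx]
  have hmem : (⟨g' j (T x), mem_sphere_zero_iff_norm.2 hw1⟩ : sphere (0 : E) 1) ∈ A (j, N) := by
    refine interior_subset (hball ?_)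
    rw [mem_ball, Subtype.dist_eq, dist_eq_norm]
    have h2 : g' j (T x) - (z : E) = g' j (T x - (g' j)⁻¹ (z : E)) := by
      rw [map_sub]
      congr 1
      exact ((g' j).apply_symm_apply (z : E)).symm
    show ‖g' j (T x) - (z : E)‖ < δ
    rw [h2, LinearIsometryEquiv.norm_map]
    exact hTx
  have hmem' : (g' j)⁻¹ (g' j (T x)) ∈ C N := hmem
  have h3 : (g' j)⁻¹ (g' j (T x)) = T x := (g' j).symm_apply_apply (T x)
  rw [h3] at hmem'
  obtain ⟨k, hk, hkx⟩ := hmem'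
  have hfk : (fn k).comp (op T) = f := by
    refine unique_support htr' hx _ _ ?_ ?_ hf.le hfx
    · rw [norm_comp_op]; exact fn_norm k
    · exact hkx
  have h4 := eventually_move η hR hw hT (fn k) (by positivity : (0 : ℝ) < ε / 2)
  rw [hfk] at h4
  filter_upwards [h4, eventually_ge_atTop N] with n h5 h6
  have h7 : ‖fn k + η n‖ ≤ r + ε / 2 := hk n h6
  linarith

end Pool.Agent.H509.Rot
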