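import Pool.Agent.H509.Rot.Fin

/-!
# Transitive groups with countable image in the Calkin algebra (special case of NonmeagreCompactOrbit)

Let `E` be a separable infinite-dimensional real Banach space and `G` a group of surjective linear
isometries which acts transitively on the unit sphere. If the image of `G` in the quotient algebra of
bounded operators modulo compact operators is countable, then `E` is a Hilbert space. The starting
file `NormSeparableGroups` has the case where this image is trivial.

Proof outline (files `Pool/Agent/H509/Rot/*`). Let `H` be the group of the isometries `T` with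
`T - 1` compact; countably many cosets of `H` cover `G`.

1. `Almost.lean`: the distance to an orbit of `H` is a continuous function on the sphere with
   countably many values, so the orbits of `H` are dense in the (connected) sphere.
2. `Const.lean`: let `η n` be a bounded weak* null sequence of functionals and `f x` the norming
   functional of `x`. If `limsup ‖f x + η n‖ ≤ r` for one `x`, then countably many translates of the
   sets `{y | ‖f y + η n‖ ≤ r + ε for all n ≥ N}`, which are closed, cover the sphere. By Baire's
   theorem one of them has interior points, and the dense orbits of `H` carry the estimate to all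
   points. So `limsup ‖f + η n‖` does not depend on the unit functional `f` (Bishop-Phelps).
3. `Fin.lean`: by the Baire argument in `H821/Rot/Kadec.lean` the dual space is separable. So `H` and
   `G` are separable for the operator norm, and by the starting files there is a continuous
   `H`-invariant quadratic form. By 1 it is a multiple of the square of the norm.
-/

set_option autoImplicit false
set_option linter.unusedVariables false

namespace Pool.Agent.H509.Rot.CountableModCompact

open TopologicalSpace

theorem result :
    ∀ (E : Type) [NormedAddCommGroup E] [NormedSpace ℝ E] [CompleteSpace E] [SeparableSpace E],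
      ¬ FiniteDimensional ℝ E →
      ∀ G : Subgroup (E ≃ₗᵢ[ℝ] E), (∀ x y : E, ‖x‖ = 1 → ‖y‖ = 1 → ∃ T ∈ G, T x = y) →
        (∃ D : Set (E →L[ℝ] E), D.Countable ∧ ∀ T ∈ G, ∃ S ∈ D,
          IsCompactOperator (fun z : E => T z - S z)) →
        ∃ (H : Type) (instH : NormedAddCommGroup H) (instI : InnerProductSpace ℝ H)
          (instC : CompleteSpace H), Nonempty (E ≃ₗᵢ[ℝ] H) := by
  intro E _ _ _ _ hE G htr hD
  obtain ⟨D, hDc, hD⟩ := hD
  classical
  -- replace the members of `D` by members of `G`
  let r : (E →L[ℝ] E) → (E ≃ₗᵢ[ℝ] E) := fun S =>
    if h : ∃ T ∈ G, IsCompactOperator (fun z : E => T z - S z) then h.choose else 1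
  refine Pool.Agent.H509.Rot.hilbert_of_countable hE G htr ⟨r '' D, hDc.image r, fun T hT => ?_⟩
  obtain ⟨S, hS, hTS⟩ := hD T hT
  refine ⟨r S, Set.mem_image_of_mem r hS, ?_⟩
  have h : ∃ T ∈ G, IsCompactOperator (fun z : E => T z - S z) := ⟨T, hT, hTS⟩
  have h1 : r S = h.choose := dif_pos h
  have h2 : IsCompactOperator (fun z : E => r S z - S z) := by
    rw [h1]
    exact h.choose_spec.2
  have h3 := hTS.sub h2
  have h4 : (fun z : E => T z - r S z) = (fun z : E => T z - S z) - fun z : E => r S z - S z := by
    funext z
    show T z - r S z = (T z - S z) - (r S z - S z)
    abel
  rw [h4]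
  exact h3

end Pool.Agent.H509.Rot.CountableModCompact
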