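import Mathlib

/-!
# Amenability, as a topological group, modulo compact operators: definitions
-/

set_option autoImplicit false

namespace Pool.Agent.H509.Rot

variable {E : Type} [NormedAddCommGroup E] [NormedSpace ℝ E]

/-- bounded functions on `G` which are uniformly continuous for the distance of isometries modulo
compact operators -/
def UCB (G : Subgroup (E ≃ₗᵢ[ℝ] E)) (φ : G → ℝ) : Prop :=
  (∃ C : ℝ, ∀ T, |φ T| ≤ C) ∧
    ∀ ε : ℝ, 0 < ε → ∃ δ : ℝ, 0 < δ ∧ ∀ (S T : G) (K : E →L[ℝ] E), IsCompactOperator K →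
      (∀ x : E, ‖(S : E ≃ₗᵢ[ℝ] E) x - (T : E ≃ₗᵢ[ℝ] E) x - K x‖ ≤ δ * ‖x‖) → |φ S - φ T| ≤ ε

/-- there is a left invariant mean on the space `UCB G` -/
def TopAmenableModCompact (G : Subgroup (E ≃ₗᵢ[ℝ] E)) : Prop :=
  ∃ m : (G → ℝ) → ℝ,
    (∀ φ ψ, UCB G φ → UCB G ψ → m (fun T => φ T + ψ T) = m φ + m ψ) ∧
    (∀ (r : ℝ) φ, UCB G φ → m (fun T => r * φ T) = r * m φ) ∧
    (∀ φ, UCB G φ → (∀ T, 0 ≤ φ T) → 0 ≤ m φ) ∧
    m (fun _ => 1) = 1 ∧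
    ∀ (R : G) φ, UCB G φ → m (fun T => φ (R * T)) = m φ

end Pool.Agent.H509.Rot
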