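import Pool.Agent.H509.Rot.Const
import Pool.Agent.H821.Rot.Main

/-!
# Transitive groups which are countable modulo compact operators: the dual space is separable,
and an almost invariant quadratic form is continuous
-/

set_option autoImplicit false
set_option linter.unusedSectionVars false
set_option linter.unusedVariables false

namespace Pool.Agent.H509.Rot

open TopologicalSpace Metric Filter Topology Pool.Agent.H821.Rot

variable {E : Type} [NormedAddCommGroup E] [NormedSpace ℝ E]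

/-- norm attaining unit functionals are dense in the dual sphere (Bishop-Phelps) -/
lemma na_approx [CompleteSpace E] (f : StrongDual ℝ E) (hf : ‖f‖ = 1) {ε : ℝ} (hε : 0 < ε) :
    ∃ f' : StrongDual ℝ E, ‖f'‖ = 1 ∧ (∃ x, ‖x‖ = 1 ∧ f' x = 1) ∧ ‖f' - f‖ ≤ ε := by
  set δ : ℝ := min (ε / 2) (1 / 2) with hδ
  have hδ0 : 0 < δ := lt_min (by positivity) (by norm_num)
  obtain ⟨Φ, hΦ, y, hy, hΦy⟩ := Pool.Agent.Helper902.NA.bishop_phelps f δ hδ0
  have h3 : |‖Φ‖ - 1| ≤ δ := by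
    rw [← hf]
    exact (abs_norm_sub_norm_le _ _).trans hΦ
  have hδ1 : δ ≤ 1 / 2 := min_le_right _ _
  have hδ2 : δ ≤ ε / 2 := min_le_left _ _
  rw [abs_le] at h3
  have hΦ0 : 0 < ‖Φ‖ := by linarith [h3.1]
  have hy1 : ‖y‖ = 1 := by
    apply le_antisymm hy
    have h4 := Φ.le_opNorm y
    rw [hΦy, norm_norm] at h4
    nlinarith
  refine ⟨‖Φ‖⁻¹ • Φ, ?_, ⟨y, hy1, ?_⟩, ?_⟩
  · rw [norm_smul, norm_inv, norm_norm, inv_mul_cancel₀ hΦ0.ne']
  · show ‖Φ‖⁻¹ * Φ y = 1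
    rw [hΦy, inv_mul_cancel₀ hΦ0.ne']
  · have h5 : ‖‖Φ‖⁻¹ • Φ - Φ‖ ≤ δ := by
      have h6 : ‖Φ‖⁻¹ • Φ - Φ = (‖Φ‖⁻¹ - 1) • Φ := by
        ext z
        show ‖Φ‖⁻¹ * Φ z - Φ z = (‖Φ‖⁻¹ - 1) * Φ z
        ring
      rw [h6, norm_smul, Real.norm_eq_abs]
      have h7 : |‖Φ‖⁻¹ - 1| * ‖Φ‖ = |1 - ‖Φ‖| := by
        rw [← abs_of_pos hΦ0, ← abs_mul, abs_of_pos hΦ0, sub_mul, inv_mul_cancel₀ hΦ0.ne',
          one_mul]
      rw [h7, abs_le]
      constructor <;> linarith [h3.1, h3.2]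
    calc ‖‖Φ‖⁻¹ • Φ - f‖ = ‖(‖Φ‖⁻¹ • Φ - Φ) + (Φ - f)‖ := by congr 1; abel
      _ ≤ δ + δ := (norm_add_le _ _).trans (add_le_add h5 hΦ)
      _ ≤ ε := by linarith

/-- the bound passes from one unit functional to all others -/
theorem le_const_all [CompleteSpace E] [SeparableSpace E] (hrank : 1 < Module.rank ℝ E)
    (G : Subgroup (E ≃ₗᵢ[ℝ] E))
    (htr : ∀ x y : E, ‖x‖ = 1 → ‖y‖ = 1 → ∃ T ∈ G, T x = y)
    (g g' : ℕ → (E ≃ₗᵢ[ℝ] E)) (hg : ∀ T ∈ G, ∃ n, T * (g n)⁻¹ ∈ compactGroup E)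
    (hg' : ∀ T ∈ G, ∃ n, (g' n)⁻¹ * T ∈ compactGroup E)
    (η : ℕ → StrongDual ℝ E) {R : ℝ} (hR : ∀ i, ‖η i‖ ≤ R)
    (hw : ∀ y, Tendsto (fun i => η i y) atTop (𝓝 0)) {r : ℝ}
    (f₀ : StrongDual ℝ E) (hf₀ : ‖f₀‖ = 1)
    (h0 : ∀ ε : ℝ, 0 < ε → ∀ᶠ n in atTop, ‖f₀ + η n‖ ≤ r + ε)
    (f : StrongDual ℝ E) (hf : ‖f‖ = 1) (ε : ℝ) (hε : 0 < ε) :
    ∀ᶠ n in atTop, ‖f + η n‖ ≤ r + ε := by
  obtain ⟨a, ha, ⟨x, hx, hax⟩, haf⟩ := na_approx f₀ hf₀ (by positivity : (0 : ℝ) < ε / 4)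
  obtain ⟨b, hb, ⟨y, hy, hby⟩, hbf⟩ := na_approx f hf (by positivity : (0 : ℝ) < ε / 4)
  have h1 : ∀ ε' : ℝ, 0 < ε' → ∀ᶠ n in atTop, ‖a + η n‖ ≤ (r + ε / 4) + ε' := by
    intro ε' hε'
    filter_upwards [h0 ε' hε'] with n hn
    have h2 : a + η n = (f₀ + η n) + (a - f₀) := by abel
    rw [h2]
    refine (norm_add_le _ _).trans ?_
    linarith
  have h3 := le_const hrank G htr g g' hg hg' η hR hw hx a ha hax h1 hy b hb hby (ε / 4)
    (by positivity)
  filter_upwards [h3] with n hn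
  have h2 : f + η n = (b + η n) - (b - f) := by abel
  rw [h2]
  refine (norm_sub_le _ _).trans ?_
  linarith

/-- on the dual sphere weak* convergent sequences converge in norm -/
theorem dual_kadec' [CompleteSpace E] [SeparableSpace E] (hrank : 1 < Module.rank ℝ E)
    (G : Subgroup (E ≃ₗᵢ[ℝ] E))
    (htr : ∀ x y : E, ‖x‖ = 1 → ‖y‖ = 1 → ∃ T ∈ G, T x = y)
    (g g' : ℕ → (E ≃ₗᵢ[ℝ] E)) (hg : ∀ T ∈ G, ∃ n, T * (g n)⁻¹ ∈ compactGroup E)
    (hg' : ∀ T ∈ G, ∃ n, (g' n)⁻¹ * T ∈ compactGroup E)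
    (f : StrongDual ℝ E) (hf : ‖f‖ = 1) (h : ℕ → StrongDual ℝ E) (hh : ∀ n, ‖h n‖ = 1)
    (hw : ∀ y, Tendsto (fun n => h n y) atTop (𝓝 (f y))) :
    Tendsto (fun n => ‖h n - f‖) atTop (𝓝 0) := by
  have hw' : ∀ y, Tendsto (fun n => (h n - f) y) atTop (𝓝 0) := by
    intro y
    have := (hw y).sub_const (f y)
    rw [sub_self] at this
    exact this
  have hR : ∀ n, ‖h n - f‖ ≤ 2 := fun n => (norm_sub_le _ _).trans (by rw [hh, hf]; norm_num)
  have hall : ∀ k : StrongDual ℝ E, ‖k‖ = 1 → ∀ ε : ℝ, 0 < ε →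
      ∀ᶠ n in atTop, ‖k + (h n - f)‖ ≤ 1 + ε := fun k hk ε hε =>
    le_const_all hrank G htr g g' hg hg' (fun n => h n - f) hR hw' f hf (fun ε hε => by
      refine Eventually.of_forall fun n => ?_
      rw [add_sub_cancel, hh]
      linarith) k hk ε hε
  refine null_of_star (fun n => h n - f) hw' fun ψ hψ ε hε => ?_
  -- write `ψ` as a convex combination of unit functionals
  obtain ⟨k, r, hk, hr0, hr1, hψk⟩ : ∃ (k : StrongDual ℝ E) (r : ℝ), ‖k‖ = 1 ∧ 0 ≤ r ∧ r ≤ 1 ∧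
      ψ = r • k := by
    by_cases h0 : ψ = 0
    · exact ⟨f, 0, hf, le_rfl, zero_le_one, by rw [h0, zero_smul]⟩
    · have hn : ‖ψ‖ ≠ 0 := norm_ne_zero_iff.2 h0
      refine ⟨‖ψ‖⁻¹ • ψ, ‖ψ‖, ?_, norm_nonneg _, hψ, ?_⟩
      · rw [norm_smul, norm_inv, norm_norm, inv_mul_cancel₀ hn]
      · rw [smul_smul, mul_inv_cancel₀ hn, one_smul]
  filter_upwards [hall k hk ε hε, hall (-k) (by rw [norm_neg, hk]) ε hε] with n hn1 hn2
  have h3 : ψ + (h n - f) = ((1 + r) / 2) • (k + (h n - f)) +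
      ((1 - r) / 2) • (-k + (h n - f)) := by
    rw [hψk]; module
  show ‖ψ + (h n - f)‖ ≤ 1 + ε
  rw [h3]
  refine (norm_add_le _ _).trans ?_
  rw [norm_smul, norm_smul, Real.norm_eq_abs, Real.norm_eq_abs, abs_of_nonneg (by linarith),
    abs_of_nonneg (by linarith)]
  nlinarith

theorem dual_separable' [CompleteSpace E] [SeparableSpace E]
    (hrank : 1 < Module.rank ℝ E)
    (G : Subgroup (E ≃ₗᵢ[ℝ] E))
    (htr : ∀ x y : E, ‖x‖ = 1 → ‖y‖ = 1 → ∃ T ∈ G, T x = y)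
    (g g' : ℕ → (E ≃ₗᵢ[ℝ] E)) (hg : ∀ T ∈ G, ∃ n, T * (g n)⁻¹ ∈ compactGroup E)
    (hg' : ∀ T ∈ G, ∃ n, (g' n)⁻¹ * T ∈ compactGroup E) :
    SeparableSpace (StrongDual ℝ E) := by
  -- the sphere is separable
  have hS : IsSeparable (sphere (0 : StrongDual ℝ E) 1) := by
    by_cases hne : Nonempty (sphere (0 : StrongDual ℝ E) 1)
    swap
    · have : sphere (0 : StrongDual ℝ E) 1 = ∅ := Set.not_nonempty_iff_eq_empty.1 (by
        rintro ⟨x, hx⟩; exact hne ⟨⟨x, hx⟩⟩)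
      rw [this]
      exact Set.countable_empty.isSeparable
    let Φ : sphere (0 : StrongDual ℝ E) 1 → (ℕ → ℝ) := fun f j => (f : StrongDual ℝ E) (denseSeq E j)
    have : Nonempty (Set.range Φ) := ⟨⟨_, hne.some, rfl⟩⟩
    let a := denseSeq (Set.range Φ)
    have ha : DenseRange a := denseRange_denseSeq _
    have hch : ∀ n, ∃ f : sphere (0 : StrongDual ℝ E) 1, Φ f = a n := fun n => (a n).2
    choose h hh using hch
    refine ⟨Set.range fun n => (h n : StrongDual ℝ E), Set.countable_range _, fun f hf => ?_⟩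
    have hf1 : ‖f‖ = 1 := mem_sphere_zero_iff_norm.1 hf
    -- a sequence converging to `Φ f`
    have hmem : (⟨Φ ⟨f, hf⟩, ⟨⟨f, hf⟩, rfl⟩⟩ : Set.range Φ) ∈ closure (Set.range a) := ha _
    obtain ⟨b, hb, hbt⟩ := mem_closure_iff_seq_limit.1 hmem
    choose k hk using hb
    have hbt' : Tendsto (fun n => ((b n : Set.range Φ) : ℕ → ℝ)) atTop (𝓝 (Φ ⟨f, hf⟩)) :=
      (continuous_subtype_val.tendsto _).comp hbt
    rw [tendsto_pi_nhds] at hbt'
    have hpt : ∀ j, Tendsto (fun n => (h (k n) : StrongDual ℝ E) (denseSeq E j)) atTop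
        (𝓝 (f (denseSeq E j))) := by
      intro j
      refine (hbt' j).congr fun n => ?_
      rw [← hk n, ← hh (k n)]
    have hn1 : ∀ n, ‖(h n : StrongDual ℝ E)‖ = 1 := fun n => mem_sphere_zero_iff_norm.1 (h n).2
    have hlim := dual_kadec' hrank G htr g g' hg hg' f hf1 (fun n => (h (k n) : StrongDual ℝ E)) (fun n => hn1 _)
      (conv_of_dense (fun n => (h (k n) : StrongDual ℝ E)) f (fun n => (hn1 _).le) hf1.le hpt)
    refine mem_closure_of_tendsto (tendsto_iff_norm_sub_tendsto_zero.2 hlim)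
      (Eventually.of_forall fun n => ⟨k n, rfl⟩)
  have hspan : (Submodule.span ℝ (sphere (0 : StrongDual ℝ E) 1) : Set (StrongDual ℝ E)) =
      Set.univ := by
    rw [Set.eq_univ_iff_forall]
    intro f
    by_cases h0 : f = 0
    · rw [h0]; exact Submodule.zero_mem _
    · have hn : ‖f‖ ≠ 0 := norm_ne_zero_iff.2 h0
      have h1 : f = ‖f‖ • (‖f‖⁻¹ • f) := by rw [smul_smul, mul_inv_cancel₀ hn, one_smul]
      rw [h1]
      refine Submodule.smul_mem _ _ (Submodule.subset_span ?_)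
      rw [mem_sphere_zero_iff_norm, norm_smul, norm_inv, norm_norm, inv_mul_cancel₀ hn]
  have h1 := hS.span (R := ℝ)
  rw [hspan] at h1
  exact isSeparable_univ_iff.1 h1

/-- an equivalent quadratic form, invariant under the elements of `G` of the form `1 + compact` -/
theorem exists_form' [CompleteSpace E] [SeparableSpace E] (hE : ¬ FiniteDimensional ℝ E)
    (G : Subgroup (E ≃ₗᵢ[ℝ] E)) (hsep : IsSeparable (ops (G : Set (E ≃ₗᵢ[ℝ] E))))
    (htr : ∀ x y : E, ‖x‖ = 1 → ‖y‖ = 1 → ∃ T ∈ G, T x = y) :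
    ∃ (c C : ℝ) (q : E → ℝ), 0 < c ∧ (∀ v, c * ‖v‖ ^ 2 ≤ q v ∧ q v ≤ C * ‖v‖ ^ 2) ∧
      (∀ u v, q (u + v) + q (u - v) = 2 * q u + 2 * q v) ∧ (∀ (r : ℝ) v, q (r • v) = r ^ 2 * q v) ∧
      (∀ T : E ≃ₗᵢ[ℝ] E, IsCompactOperator (fun x : E => T x - x) → ∀ v, q (T v) = q v) ∧
      ∀ v w, |q v - q w| ≤ C * ‖v - w‖ * (‖v‖ + ‖w‖) := by
  obtain ⟨H, i1, i2, i3, ⟨Φ⟩⟩ := hilbertian G hsep htr
  have htr' : ∀ x y : E, ‖x‖ = 1 → ‖y‖ = 1 → ∃ T : E ≃ₗᵢ[ℝ] E, T x = y := fun x y hx hy => by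
    obtain ⟨T, -, h⟩ := htr x y hx hy
    exact ⟨T, h⟩
  obtain ⟨c, C, f, A, hc, hA, -⟩ := Pool.Agent.Y278.Rot.hessian_field Φ htr'
  have hopen : ∀ κ : ℝ, 0 < κ → ∃ t : ℝ, 0 < t ∧ ∀ x y : E, ‖x‖ = 1 → ‖y‖ = 1 → ‖y - x‖ ≤ t →
      ∃ T : E ≃ₗᵢ[ℝ] E, T x = y ∧ ‖op T - 1‖ ≤ κ := fun κ hκ => open_norm G hsep htr hκ
  -- the unit vectors
  choose x hx1 hx2 using exists_unit_ker hE
  have : (atTop : Filter (Finset (StrongDual ℝ E))).NeBot := inferInstance
  set U : Ultrafilter (Finset (StrongDual ℝ E)) := Ultrafilter.of atTop with hU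
  have hw : ∀ g : StrongDual ℝ E, ∀ᶠ s in (U : Filter (Finset (StrongDual ℝ E))), g (x s) = 0 := by
    intro g
    have h1 : ∀ᶠ s in (atTop : Filter (Finset (StrongDual ℝ E))), g (x s) = 0 := by
      filter_upwards [eventually_ge_atTop ({g} : Finset (StrongDual ℝ E))] with s hs
      exact hx2 s g (hs (Finset.mem_singleton_self g))
    exact h1.filter_mono (Ultrafilter.of_le atTop)
  have hC0 : 0 ≤ C := by
    have h1 := (hA (x ∅) (hx1 ∅)).2.1 (x ∅)
    rw [hx1] at h1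
    linarith [h1.1, h1.2]
  have hlow : ∀ s w, c * ‖w‖ ^ 2 ≤ A (x s) w w := fun s w => ((hA _ (hx1 s)).2.1 w).1
  have hup : ∀ s w, A (x s) w w ≤ C * ‖w‖ ^ 2 := fun s w => ((hA _ (hx1 s)).2.1 w).2
  have hbd : ∀ s (u v : E), |A (x s) u v| ≤ C * ‖u‖ * ‖v‖ := fun s =>
    form_bound (hA _ (hx1 s)).1 (fun w => le_trans (by positivity) (hlow s w)) (hup s) hC0
  -- the limits
  have hlim : ∀ v, ∃ l : ℝ, Tendsto (fun s => A (x s) v v) U (𝓝 l) := by
    intro v
    obtain ⟨l, -, hl⟩ := (isCompact_Icc (a := c * ‖v‖ ^ 2) (b := C * ‖v‖ ^ 2)).ultrafilter_le_nhds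
      (U.map fun s => A (x s) v v) (by
        rw [le_principal_iff, Ultrafilter.mem_coe, Ultrafilter.mem_map]
        exact Filter.univ_mem' fun s => ⟨hlow s v, hup s v⟩)
    exact ⟨l, hl⟩
  choose q hq using hlim
  refine ⟨c, C, q, hc, fun v => ⟨ge_of_tendsto' (hq v) fun s => hlow s v,
    le_of_tendsto' (hq v) fun s => hup s v⟩, fun u v => ?_, fun r v => ?_, fun T hT v => ?_,
    fun v w => ?_⟩
  · refine tendsto_nhds_unique ((hq (u + v)).add (hq (u - v))) ?_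
    refine (((hq u).const_mul 2).add ((hq v).const_mul 2)).congr fun s => ?_
    simp only [map_add, map_sub, _root_.add_apply, _root_.sub_apply]
    ring
  · refine tendsto_nhds_unique (hq (r • v)) ?_
    refine ((hq v).const_mul (r ^ 2)).congr fun s => ?_
    simp only [map_smul, _root_.smul_apply, smul_eq_mul]
    ring
  · -- invariance
    have hnull : Tendsto (fun s => ‖T (x s) - x s‖) U (𝓝 0) :=
      compact_null U x (fun s => (hx1 s).le) hw (op T - 1) hT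
    have key : ∀ ε : ℝ, 0 < ε → |q (T v) - q v| ≤ 2 * C * ‖v‖ ^ 2 * ε := by
      intro ε hε
      obtain ⟨t, ht, hop⟩ := hopen ε hε
      have h1 : ∀ᶠ s in (U : Filter (Finset (StrongDual ℝ E))),
          |A (x s) (T v) (T v) - A (x s) v v| ≤ 2 * C * ‖v‖ ^ 2 * ε := by
        filter_upwards [hnull.eventually (gt_mem_nhds ht)] with s hs
        -- `T⁻¹ (x s)` is close to `x s`
        have hTx : ‖T.symm (x s)‖ = 1 := by rw [T.symm.norm_map, hx1]
        obtain ⟨S, hS1, hS2⟩ := hop (x s) (T.symm (x s)) (hx1 s) hTx (by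
          have h2 : T.symm (x s) - x s = - T.symm (T (x s) - x s) := by
            rw [map_sub, T.symm_apply_apply]; abel
          rw [h2, norm_neg, T.symm.norm_map]
          exact hs.le)
        have e1 : A (x s) (T v) (T v) = A (T.symm (x s)) v v := by
          have := (hA _ hTx).2.2.2 T v v
          rwa [T.apply_symm_apply] at this
        set w : E := S.symm v with hw'
        have e2 : A (T.symm (x s)) v v = A (x s) w w := by
          have := (hA _ (hx1 s)).2.2.2 S w w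
          rwa [hS1, hw', S.apply_symm_apply] at this
        have hwv : ‖w - v‖ ≤ ε * ‖v‖ := by
          have h3 : ‖w - v‖ = ‖S v - v‖ := by
            have h4 : w - v = - S.symm (S v - v) := by
              rw [map_sub, S.symm_apply_apply]; abel
            rw [h4, norm_neg, S.symm.norm_map]
          rw [h3]
          exact (norm_op_apply_sub S v).trans (mul_le_mul_of_nonneg_right hS2 (norm_nonneg _))
        have hwn : ‖w‖ = ‖v‖ := S.symm.norm_map v
        have e3 : A (x s) w w - A (x s) v v = A (x s) (w - v) w + A (x s) v (w - v) := by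
          simp only [map_sub, _root_.sub_apply]
          ring
        rw [e1, e2, e3]
        calc |A (x s) (w - v) w + A (x s) v (w - v)|
            ≤ |A (x s) (w - v) w| + |A (x s) v (w - v)| := abs_add_le _ _
          _ ≤ C * ‖w - v‖ * ‖w‖ + C * ‖v‖ * ‖w - v‖ := add_le_add (hbd _ _ _) (hbd _ _ _)
          _ = 2 * C * ‖v‖ * ‖w - v‖ := by rw [hwn]; ring
          _ ≤ 2 * C * ‖v‖ * (ε * ‖v‖) := mul_le_mul_of_nonneg_left hwv (by positivity)
          _ = 2 * C * ‖v‖ ^ 2 * ε := by ring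
      exact le_of_tendsto ((hq (T v)).sub (hq v)).abs h1
    have h0 : |q (T v) - q v| ≤ 0 := by
      refine le_of_forall_pos_le_add fun η hη => ?_
      have hpos : 0 < 2 * C * ‖v‖ ^ 2 + 1 := by positivity
      have h2 := key (η / (2 * C * ‖v‖ ^ 2 + 1)) (by positivity)
      have h3 : 2 * C * ‖v‖ ^ 2 * (η / (2 * C * ‖v‖ ^ 2 + 1)) ≤ η := by
        rw [mul_div_assoc', div_le_iff₀ hpos]
        nlinarith
      linarith
    have h4 := abs_nonpos_iff.1 h0
    linarith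
  · refine le_of_tendsto' ((hq v).sub (hq w)).abs fun s => ?_
    have e3 : A (x s) v v - A (x s) w w = A (x s) (v - w) v + A (x s) w (v - w) := by
      simp only [map_sub, _root_.sub_apply]
      ring
    rw [e3]
    calc |A (x s) (v - w) v + A (x s) w (v - w)|
        ≤ |A (x s) (v - w) v| + |A (x s) w (v - w)| := abs_add_le _ _
      _ ≤ C * ‖v - w‖ * ‖v‖ + C * ‖w‖ * ‖v - w‖ := add_le_add (hbd _ _ _) (hbd _ _ _)
      _ = C * ‖v - w‖ * (‖v‖ + ‖w‖) := by ring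

/-- transitive groups which are countable modulo compact operators -/
theorem hilbert_of_countable [CompleteSpace E] [SeparableSpace E] (hE : ¬ FiniteDimensional ℝ E)
    (G : Subgroup (E ≃ₗᵢ[ℝ] E))
    (htr : ∀ x y : E, ‖x‖ = 1 → ‖y‖ = 1 → ∃ T ∈ G, T x = y)
    (hD : ∃ D : Set (E ≃ₗᵢ[ℝ] E), D.Countable ∧ ∀ T ∈ G, ∃ S ∈ D,
      IsCompactOperator (fun z : E => T z - S z)) :
    ∃ (H : Type) (instH : NormedAddCommGroup H) (instI : InnerProductSpace ℝ H)
      (instC : CompleteSpace H), Nonempty (E ≃ₗᵢ[ℝ] H) := by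
  have hrank : 1 < Module.rank ℝ E := by
    by_contra hcon
    apply hE
    have h1 : Module.rank ℝ E ≤ 1 := not_lt.1 hcon
    exact Module.rank_lt_aleph0_iff.1 (h1.trans_lt Cardinal.one_lt_aleph0)
  obtain ⟨D, hDc, hD⟩ := hD
  have hDne : D.Nonempty := by
    obtain ⟨S, hS, -⟩ := hD 1 G.one_mem
    exact ⟨S, hS⟩
  obtain ⟨g, hg⟩ := hDc.exists_eq_range hDne
  -- both kinds of cosets
  have hR : ∀ T ∈ G, ∃ n, T * (g n)⁻¹ ∈ compactGroup E := by
    intro T hT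
    obtain ⟨S, hS, hK⟩ := hD T hT
    rw [hg] at hS
    obtain ⟨n, rfl⟩ := hS
    refine ⟨n, ?_⟩
    have h1 : IsCompactOperator (fun z : E => T ((g n)⁻¹ z) - g n ((g n)⁻¹ z)) :=
      hK.comp_clm (op (g n)⁻¹)
    show IsCompactOperator (fun z : E => (T * (g n)⁻¹) z - z)
    have h2 : (fun z : E => (T * (g n)⁻¹) z - z) =
        fun z : E => T ((g n)⁻¹ z) - g n ((g n)⁻¹ z) := by
      funext z
      have : g n ((g n)⁻¹ z) = z := (g n).apply_symm_apply z
      rw [this]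
      rfl
    rw [h2]
    exact h1
  have hL : ∀ T ∈ G, ∃ n, (g n)⁻¹ * T ∈ compactGroup E := by
    intro T hT
    obtain ⟨S, hS, hK⟩ := hD T hT
    rw [hg] at hS
    obtain ⟨n, rfl⟩ := hS
    refine ⟨n, ?_⟩
    have h1 : IsCompactOperator (fun z : E => op (g n)⁻¹ (T z - g n z)) := hK.clm_comp _
    show IsCompactOperator (fun z : E => ((g n)⁻¹ * T) z - z)
    have h2 : (fun z : E => ((g n)⁻¹ * T) z - z) = fun z : E => op (g n)⁻¹ (T z - g n z) := by
      funext z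
      rw [map_sub]
      have : op (g n)⁻¹ (g n z) = z := (g n).symm_apply_apply z
      rw [this]
      rfl
    rw [h2]
    exact h1
  -- the group is separable for the operator norm
  have hdual : SeparableSpace (StrongDual ℝ E) := dual_separable' hrank G htr g g hR hL
  have hsepK : IsSeparable (ops (compactGroup E : Set (E ≃ₗᵢ[ℝ] E))) := compactGroup_separable
  have hsep : IsSeparable (ops (G : Set (E ≃ₗᵢ[ℝ] E))) := by
    have h1 : IsSeparable (⋃ n : ℕ, (fun a : E →L[ℝ] E => op (g n) * a) ''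
        ops (compactGroup E : Set (E ≃ₗᵢ[ℝ] E))) :=
      IsSeparable.iUnion fun n => hsepK.image (continuous_const.mul continuous_id)
    refine h1.mono ?_
    rintro _ ⟨T, hT, rfl⟩
    obtain ⟨n, hn⟩ := hL T hT
    refine Set.mem_iUnion.2 ⟨n, op ((g n)⁻¹ * T), ⟨_, hn, rfl⟩, ?_⟩
    show op (g n) * op ((g n)⁻¹ * T) = op T
    rw [← op_mul, mul_inv_cancel_left]
  obtain ⟨c, C, q, hc, hq, hpar, hsm, hinv, hlip⟩ := exists_form' hE G hsep htr
  obtain ⟨e, he, -⟩ := exists_unit_ker hE ∅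
  have hC0 : 0 ≤ C := by
    have h1 := hq e
    rw [he] at h1
    linarith [h1.1, h1.2]
  -- the form is constant on the sphere
  have hconst : ∀ v : E, ‖v‖ = 1 → q v = q e := by
    intro v hv
    have h0 : |q e - q v| ≤ 0 := by
      refine le_of_forall_pos_le_add fun ε hε => ?_
      obtain ⟨T, hT, hTe⟩ := almost_transitive hrank G (compactGroup E) htr g hR he hv
        (by positivity : (0 : ℝ) < ε / (2 * C + 1))
      have h1 := hlip (T e) v
      rw [hinv T hT e, T.norm_map, he, hv] at h1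
      have h2 : C * ‖T e - v‖ * (1 + 1) ≤ ε := by
        have h3 : 2 * C * ‖T e - v‖ ≤ 2 * C * (ε / (2 * C + 1)) :=
          mul_le_mul_of_nonneg_left hTe.le (by positivity)
        have h4 : 2 * C * (ε / (2 * C + 1)) ≤ ε := by
          rw [mul_div_assoc', div_le_iff₀ (by positivity)]
          nlinarith
        linarith
      linarith
    have h4 := abs_nonpos_iff.1 h0
    linarith
  have hq2 : ∀ v, q v = q e * ‖v‖ ^ 2 := by
    intro v
    by_cases hv : v = 0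
    · rw [hv, norm_zero]
      have := hsm 0 e
      rw [zero_smul] at this
      rw [this]; ring
    · have hn : ‖v‖ ≠ 0 := norm_ne_zero_iff.2 hv
      have h2 := hconst (‖v‖⁻¹ • v) (by rw [norm_smul, norm_inv, norm_norm, inv_mul_cancel₀ hn])
      rw [hsm] at h2
      have h3 : q v = ‖v‖ ^ 2 * ((‖v‖⁻¹) ^ 2 * q v) := by field_simp
      rw [h3, h2]; ring
  exact hilbert_of_form ⟨e, he⟩ G htr q hc (fun v => (hq v).1) hpar hsm fun T hT v => by
    rw [hq2, hq2 v, T.norm_map]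

end Pool.Agent.H509.Rot
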