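import Pool.Agent.H509.Rot.Fin

/-!
# Transitive spaces in which the compact perturbations of the identity have a non-meagre orbit
-/

set_option autoImplicit false
set_option linter.unusedSectionVars false
set_option linter.unusedVariables false

namespace Pool.Agent.H509.Rot

open TopologicalSpace Metric Filter Topology Pool.Agent.H821.Rot

variable {E : Type} [NormedAddCommGroup E] [NormedSpace ℝ E]

/-- some orbits of `N` cannot be covered by countably many closed sets without interior points in the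
sphere -/
def NM2 (N : Subgroup (E ≃ₗᵢ[ℝ] E)) : Prop :=
  ∀ x : E, ‖x‖ = 1 → ∀ (c : Set (E →L[ℝ] E)) [Countable c] (F : c → Set E), (∀ i, IsClosed (F i)) →
    (∀ T ∈ N, ∃ i, T x ∈ F i) → ∃ (i : c) (z : E) (δ : ℝ), ‖z‖ = 1 ∧ 0 < δ ∧
      ∀ w : E, ‖w‖ = 1 → ‖w - z‖ < δ → w ∈ F i

def NM3 (N : Subgroup (E ≃ₗᵢ[ℝ] E)) : Prop :=
  ∀ x : E, ‖x‖ = 1 → ∀ (ι : Type) [Countable ι] (F : ι → Set E), (∀ i, IsClosed (F i)) →
    (∀ T ∈ N, ∃ i, T x ∈ F i) → ∃ (i : ι) (z : E) (δ : ℝ), ‖z‖ = 1 ∧ 0 < δ ∧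
      ∀ w : E, ‖w‖ = 1 → ‖w - z‖ < δ → w ∈ F i

lemma nm_of_nonmeagre (N : Subgroup (E ≃ₗᵢ[ℝ] E))
    (hnor : ∀ (s T : E ≃ₗᵢ[ℝ] E), T ∈ N → s * T * s⁻¹ ∈ N)
    (htr : ∀ x y : E, ‖x‖ = 1 → ‖y‖ = 1 → ∃ T : E ≃ₗᵢ[ℝ] E, T x = y)
    {x₀ : E} (hx₀ : ‖x₀‖ = 1)
    (hM : ¬ IsMeagre {z : sphere (0 : E) 1 | ∃ T ∈ N, T x₀ = z}) : NM3 N := by
  intro x hx ι _ F hF hcov
  obtain ⟨g, hg⟩ := htr x₀ x hx₀ hx
  set F' : ι → Set (sphere (0 : E) 1) := fun i => {y | g (y : E) ∈ F i} with hF'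
  have hcl : ∀ i, IsClosed (F' i) := fun i =>
    (hF i).preimage (g.continuous.comp continuous_subtype_val)
  have hex : ∃ i, (interior (F' i)).Nonempty := by
    by_contra hcon
    push Not at hcon
    apply hM
    have h1 : IsMeagre (⋃ i, F' i) := isMeagre_iUnion fun i =>
      ((hcl i).isNowhereDense_iff.2 (hcon i)).isMeagre
    refine h1.mono ?_
    rintro ⟨z, hz⟩ ⟨T, hT, hTz⟩
    obtain ⟨i, hi⟩ := hcov (g * T * g⁻¹) (hnor g T hT)
    refine Set.mem_iUnion.2 ⟨i, ?_⟩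
    show g z ∈ F i
    have h2 : (g * T * g⁻¹) x = g z := by
      show g (T (g⁻¹ x)) = g z
      have h3 : g⁻¹ x = x₀ := by rw [← hg]; exact g.symm_apply_apply x₀
      have h4 : T x₀ = z := hTz
      rw [h3, h4]
    rw [← h2]
    exact hi
  obtain ⟨i, y, hy⟩ := hex
  obtain ⟨δ, hδ, hball⟩ := Metric.isOpen_iff.1 isOpen_interior y hy
  have hy1 : ‖(y : E)‖ = 1 := mem_sphere_zero_iff_norm.1 y.2
  refine ⟨i, g y, δ, by rw [g.norm_map, hy1], hδ, fun w hw hwz => ?_⟩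
  have h5 : ‖g⁻¹ w‖ = 1 := by rw [LinearIsometryEquiv.norm_map, hw]
  have h6 : (⟨g⁻¹ w, mem_sphere_zero_iff_norm.2 h5⟩ : sphere (0 : E) 1) ∈ F' i := by
    refine interior_subset (hball ?_)
    rw [mem_ball, Subtype.dist_eq, dist_eq_norm]
    show ‖g⁻¹ w - (y : E)‖ < δ
    have h7 : g⁻¹ w - (y : E) = g⁻¹ (w - g y) := by
      rw [map_sub]
      congr 1
      exact (g.symm_apply_apply (y : E)).symm
    rw [h7, LinearIsometryEquiv.norm_map]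
    exact hwz
  have h8 : g (g⁻¹ w) ∈ F i := h6
  have h9 : g (g⁻¹ w) = w := g.apply_symm_apply w
  rwa [h9] at h8

lemma nm2_of_nm3 {N : Subgroup (E ≃ₗᵢ[ℝ] E)} (h : NM3 N) : NM2 N := by
  intro x hx c _ F hF hcov
  have : Countable c := inferInstance
  by_cases hne : Nonempty c
  · obtain ⟨f, hf⟩ := exists_surjective_nat c
    obtain ⟨n, z, δ, hz, hδ, hw⟩ := h x hx ℕ (fun n => F (f n)) (fun n => hF _) fun T hT => by
      obtain ⟨i, hi⟩ := hcov T hT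
      obtain ⟨n, rfl⟩ := hf i
      exact ⟨n, hi⟩
    exact ⟨f n, z, δ, hz, hδ, hw⟩
  · obtain ⟨i, hi⟩ := hcov 1 N.one_mem
    exact absurd ⟨i⟩ hne

/-- orbits -/
def orb (N : Subgroup (E ≃ₗᵢ[ℝ] E)) (x : E) : Set E := {z | ∃ T ∈ N, T x = z}

lemma orb_smul {N : Subgroup (E ≃ₗᵢ[ℝ] E)} {T : E ≃ₗᵢ[ℝ] E} (hT : T ∈ N) {x y : E}
    (hy : y ∈ closure (orb N x)) : T y ∈ closure (orb N x) := by
  have h1 : T '' closure (orb N x) ⊆ closure (T '' orb N x) :=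
    image_closure_subset_closure_image T.continuous
  have h2 : T '' orb N x ⊆ orb N x := by
    rintro _ ⟨_, ⟨S, hS, rfl⟩, rfl⟩
    exact ⟨T * S, N.mul_mem hT hS, rfl⟩
  exact closure_mono h2 (h1 (Set.mem_image_of_mem T hy))

lemma orb_trans {N : Subgroup (E ≃ₗᵢ[ℝ] E)} {x y z : E}
    (hy : y ∈ closure (orb N x)) (hz : z ∈ closure (orb N y)) : z ∈ closure (orb N x) := by
  have h1 : orb N y ⊆ closure (orb N x) := by
    rintro _ ⟨T, hT, rfl⟩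
    exact orb_smul hT hy
  exact closure_minimal h1 isClosed_closure hz

/-- the orbits are dense -/
theorem dense_orbits (hrank : 1 < Module.rank ℝ E) (N : Subgroup (E ≃ₗᵢ[ℝ] E)) (h : NM3 N)
    {x y : E} (hx : ‖x‖ = 1) (hy : ‖y‖ = 1) : y ∈ closure (orb N x) := by
  -- every point is an interior point of the closure of its orbit
  have hint : ∀ x : E, ‖x‖ = 1 → ∃ δ : ℝ, 0 < δ ∧ ∀ w : E, ‖w‖ = 1 → ‖w - x‖ < δ →
      w ∈ closure (orb N x) := by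
    intro x hx
    obtain ⟨-, z, δ, hz, hδ, hw⟩ := h x hx Unit (fun _ => closure (orb N x))
      (fun _ => isClosed_closure) fun T hT => ⟨(), subset_closure ⟨T, hT, rfl⟩⟩
    have hzc : z ∈ closure (orb N x) := hw z hz (by simpa using hδ)
    obtain ⟨_, ⟨T, hT, rfl⟩, hTz⟩ := Metric.mem_closure_iff.1 hzc (δ / 2) (by positivity)
    rw [dist_eq_norm] at hTz
    refine ⟨δ / 2, by positivity, fun w hw1 hwx => ?_⟩
    have h1 : T w ∈ closure (orb N x) := by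
      refine hw _ (by rw [T.norm_map, hw1]) ?_
      have h2 : T w - z = T (w - x) - (z - T x) := by rw [map_sub]; abel
      rw [h2]
      refine (norm_sub_le _ _).trans_lt ?_
      rw [T.norm_map]
      linarith
    have h3 := orb_smul (N.inv_mem hT) h1
    have h4 : T⁻¹ (T w) = w := T.symm_apply_apply w
    rwa [h4] at h3
  have hps : PreconnectedSpace (sphere (0 : E) 1) :=
    Subtype.preconnectedSpace (isPreconnected_sphere hrank 0 1)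
  set A : Set (sphere (0 : E) 1) := {z | (z : E) ∈ closure (orb N x)} with hA
  have hAcl : IsClosed A := isClosed_closure.preimage continuous_subtype_val
  have hAop : IsOpen A := by
    rw [Metric.isOpen_iff]
    intro z hz
    obtain ⟨δ, hδ, hw⟩ := hint z (mem_sphere_zero_iff_norm.1 z.2)
    refine ⟨δ, hδ, fun w hw' => ?_⟩
    rw [mem_ball, Subtype.dist_eq, dist_eq_norm] at hw'
    exact orb_trans hz (hw w (mem_sphere_zero_iff_norm.1 w.2) hw')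
  have hAu : A = Set.univ := IsClopen.eq_univ ⟨hAcl, hAop⟩
    ⟨⟨x, mem_sphere_zero_iff_norm.2 hx⟩, subset_closure ⟨1, N.one_mem, rfl⟩⟩
  have : (⟨y, mem_sphere_zero_iff_norm.2 hy⟩ : sphere (0 : E) 1) ∈ A := by rw [hAu]; trivial
  exact this

/-- locally transitive groups are transitive -/
theorem transitive_of_local (hrank : 1 < Module.rank ℝ E) (N : Subgroup (E ≃ₗᵢ[ℝ] E)) {t : ℝ}
    (ht : 0 < t) (h : ∀ x y : E, ‖x‖ = 1 → ‖y‖ = 1 → ‖y - x‖ ≤ t → ∃ T ∈ N, T x = y)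
    {x y : E} (hx : ‖x‖ = 1) (hy : ‖y‖ = 1) : ∃ T ∈ N, T x = y := by
  have hps : PreconnectedSpace (sphere (0 : E) 1) :=
    Subtype.preconnectedSpace (isPreconnected_sphere hrank 0 1)
  set A : Set (sphere (0 : E) 1) := {z | (z : E) ∈ orb N x} with hA
  have hAop : IsOpen A := by
    rw [Metric.isOpen_iff]
    rintro z ⟨T, hT, hTz⟩
    refine ⟨t, ht, fun w hw => ?_⟩
    rw [mem_ball, Subtype.dist_eq, dist_eq_norm] at hw
    obtain ⟨S, hS, hSw⟩ := h z w (mem_sphere_zero_iff_norm.1 z.2) (mem_sphere_zero_iff_norm.1 w.2)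
      hw.le
    refine ⟨S * T, N.mul_mem hS hT, ?_⟩
    show S (T x) = w
    rw [hTz, hSw]
  have hAcl : IsClosed A := by
    rw [← isOpen_compl_iff, Metric.isOpen_iff]
    intro z hz
    refine ⟨t, ht, fun w hw hwA => hz ?_⟩
    rw [mem_ball, Subtype.dist_eq, dist_eq_norm] at hw
    obtain ⟨T, hT, hTw⟩ := hwA
    obtain ⟨S, hS, hSz⟩ := h w z (mem_sphere_zero_iff_norm.1 w.2) (mem_sphere_zero_iff_norm.1 z.2)
      (by rw [norm_sub_rev]; exact hw.le)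
    refine ⟨S * T, N.mul_mem hS hT, ?_⟩
    show S (T x) = z
    rw [hTw, hSz]
  have hAu : A = Set.univ := IsClopen.eq_univ ⟨hAcl, hAop⟩
    ⟨⟨x, mem_sphere_zero_iff_norm.2 hx⟩, ⟨1, N.one_mem, rfl⟩⟩
  have : (⟨y, mem_sphere_zero_iff_norm.2 hy⟩ : sphere (0 : E) 1) ∈ A := by rw [hAu]; trivial
  exact this

/-- the bound passes from one norm attaining functional to all others -/
def LC (E : Type) [NormedAddCommGroup E] [NormedSpace ℝ E] : Prop :=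
  ∀ (η : ℕ → StrongDual ℝ E) (R : ℝ), (∀ i, ‖η i‖ ≤ R) →
    (∀ y, Tendsto (fun i => η i y) atTop (𝓝 0)) → ∀ (r : ℝ) (x₀ : E), ‖x₀‖ = 1 →
    ∀ f₀ : StrongDual ℝ E, ‖f₀‖ = 1 → f₀ x₀ = 1 →
    (∀ ε : ℝ, 0 < ε → ∀ᶠ n in atTop, ‖f₀ + η n‖ ≤ r + ε) → ∀ x : E, ‖x‖ = 1 →
    ∀ f : StrongDual ℝ E, ‖f‖ = 1 → f x = 1 → ∀ ε : ℝ, 0 < ε → ∀ᶠ n in atTop, ‖f + η n‖ ≤ r + ε

theorem lc_of_nm3 [CompleteSpace E] [SeparableSpace E] (hrank : 1 < Module.rank ℝ E)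
    (htr' : ∀ x y : E, ‖x‖ = 1 → ‖y‖ = 1 → ∃ T : E ≃ₗᵢ[ℝ] E, T x = y)
    (hN : NM3 (compactGroup E)) : LC E := by
  intro η R hR hw r x₀ hx₀ f₀ hf₀ hfx₀ h0 x hx f hf hfx ε hε
  set C : ℕ → Set E := fun N => {x : E | ∃ f ∈ {f : DB E | ∀ n ≥ N, ‖fn f + η n‖ ≤ r + ε / 2},
    fn f x = 1} with hC
  have hCcl : ∀ N, IsClosed (C N) := fun N => isClosed_support _ (isClosed_bound η N _)
  obtain ⟨N, z, δ, hz1, hδ, hball⟩ := hN x₀ hx₀ ℕ C hCcl fun h hj => by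
    have hinv : h⁻¹ ∈ compactGroup E := (compactGroup E).inv_mem hj
    have h1 := (eventually_move η hR hw hinv f₀ (by positivity : (0 : ℝ) < ε / 4)).and
      (h0 (ε / 4) (by positivity))
    obtain ⟨N, hN⟩ := eventually_atTop.1 h1
    refine ⟨N, mkDB (f₀.comp (op h⁻¹)) (by rw [norm_comp_op, hf₀]), fun n hn => ?_, ?_⟩
    · rw [fn_mk]
      obtain ⟨h2, h3⟩ := hN n hn
      linarith
    · rw [fn_mk]
      show f₀ (h⁻¹ (h x₀)) = 1
      have : h⁻¹ (h x₀) = x₀ := h.symm_apply_apply x₀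
      rw [this, hfx₀]
  obtain ⟨_, ⟨T, hT, rfl⟩, hTx⟩ := Metric.mem_closure_iff.1
    (dense_orbits hrank (compactGroup E) hN hx hz1) δ hδ
  rw [dist_eq_norm, norm_sub_rev] at hTx
  obtain ⟨k, hk, hkx⟩ := hball (T x) (by rw [T.norm_map, hx]) hTx
  have hfk : (fn k).comp (op T) = f := by
    refine unique_support htr' hx _ _ ?_ ?_ hf.le hfx
    · rw [norm_comp_op]; exact fn_norm k
    · exact hkx
  have h4 := eventually_move η hR hw hT (fn k) (by positivity : (0 : ℝ) < ε / 2)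
  rw [hfk] at h4
  filter_upwards [h4, eventually_ge_atTop N] with n h5 h6
  have h7 : ‖fn k + η n‖ ≤ r + ε / 2 := hk n h6
  linarith

/-- the bound passes from one unit functional to all others -/
theorem le_const_all2 [CompleteSpace E] [SeparableSpace E] (hLC : LC E)
    (η : ℕ → StrongDual ℝ E) {R : ℝ} (hR : ∀ i, ‖η i‖ ≤ R)
    (hw : ∀ y, Tendsto (fun i => η i y) atTop (𝓝 0)) {r : ℝ}
    (f₀ : StrongDual ℝ E) (hf₀ : ‖f₀‖ = 1)
    (h0 : ∀ ε : ℝ, 0 < ε → ∀ᶠ n in atTop, ‖f₀ + η n‖ ≤ r + ε)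
    (f : StrongDual ℝ E) (hf : ‖f‖ = 1) (ε : ℝ) (hε : 0 < ε) :
    ∀ᶠ n in atTop, ‖f + η n‖ ≤ r + ε := by
  obtain ⟨a, ha, ⟨x, hx, hax⟩, haf⟩ := na_approx f₀ hf₀ (by positivity : (0 : ℝ) < ε / 4)
  obtain ⟨b, hb, ⟨y, hy, hby⟩, hbf⟩ := na_approx f hf (by positivity : (0 : ℝ) < ε / 4)
  have h1 : ∀ ε' : ℝ, 0 < ε' → ∀ᶠ n in atTop, ‖a + η n‖ ≤ (r + ε / 4) + ε' := by
    intro ε' hε'
    filter_upwards [h0 ε' hε'] with n hn
    have h2 : a + η n = (f₀ + η n) + (a - f₀) := by abel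
    rw [h2]
    refine (norm_add_le _ _).trans ?_
    linarith
  have h3 := hLC η R hR hw _ x hx a ha hax h1 y hy b hb hby (ε / 4) (by positivity)
  filter_upwards [h3] with n hn
  have h2 : f + η n = (b + η n) - (b - f) := by abel
  rw [h2]
  refine (norm_sub_le _ _).trans ?_
  linarith

/-- on the dual sphere weak* convergent sequences converge in norm -/
theorem dual_kadec2 [CompleteSpace E] [SeparableSpace E] (hLC : LC E)
    (f : StrongDual ℝ E) (hf : ‖f‖ = 1) (h : ℕ → StrongDual ℝ E) (hh : ∀ n, ‖h n‖ = 1)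
    (hw : ∀ y, Tendsto (fun n => h n y) atTop (𝓝 (f y))) :
    Tendsto (fun n => ‖h n - f‖) atTop (𝓝 0) := by
  have hw' : ∀ y, Tendsto (fun n => (h n - f) y) atTop (𝓝 0) := by
    intro y
    have := (hw y).sub_const (f y)
    rw [sub_self] at this
    exact this
  have hR : ∀ n, ‖h n - f‖ ≤ 2 := fun n => (norm_sub_le _ _).trans (by rw [hh, hf]; norm_num)
  have hall : ∀ k : StrongDual ℝ E, ‖k‖ = 1 → ∀ ε : ℝ, 0 < ε →
      ∀ᶠ n in atTop, ‖k + (h n - f)‖ ≤ 1 + ε := fun k hk ε hε =>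
    le_const_all2 hLC (fun n => h n - f) hR hw' f hf (fun ε hε => by
      refine Eventually.of_forall fun n => ?_
      rw [add_sub_cancel, hh]
      linarith) k hk ε hε
  refine null_of_star (fun n => h n - f) hw' fun ψ hψ ε hε => ?_
  -- write `ψ` as a convex combination of unit functionals
  obtain ⟨k, r, hk, hr0, hr1, hψk⟩ : ∃ (k : StrongDual ℝ E) (r : ℝ), ‖k‖ = 1 ∧ 0 ≤ r ∧ r ≤ 1 ∧
      ψ = r • k := by
    by_cases h0 : ψ = 0
    · exact ⟨f, 0, hf, le_rfl, zero_le_one, by rw [h0, zero_smul]⟩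
    · have hn : ‖ψ‖ ≠ 0 := norm_ne_zero_iff.2 h0
      refine ⟨‖ψ‖⁻¹ • ψ, ‖ψ‖, ?_, norm_nonneg _, hψ, ?_⟩
      · rw [norm_smul, norm_inv, norm_norm, inv_mul_cancel₀ hn]
      · rw [smul_smul, mul_inv_cancel₀ hn, one_smul]
  filter_upwards [hall k hk ε hε, hall (-k) (by rw [norm_neg, hk]) ε hε] with n hn1 hn2
  have h3 : ψ + (h n - f) = ((1 + r) / 2) • (k + (h n - f)) +
      ((1 - r) / 2) • (-k + (h n - f)) := by
    rw [hψk]; module
  show ‖ψ + (h n - f)‖ ≤ 1 + ε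
  rw [h3]
  refine (norm_add_le _ _).trans ?_
  rw [norm_smul, norm_smul, Real.norm_eq_abs, Real.norm_eq_abs, abs_of_nonneg (by linarith),
    abs_of_nonneg (by linarith)]
  nlinarith

theorem dual_separable2 [CompleteSpace E] [SeparableSpace E]
    (hLC : LC E) :
    SeparableSpace (StrongDual ℝ E) := by
  -- the sphere is separable
  have hS : IsSeparable (sphere (0 : StrongDual ℝ E) 1) := by
    by_cases hne : Nonempty (sphere (0 : StrongDual ℝ E) 1)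
    swap
    · have : sphere (0 : StrongDual ℝ E) 1 = ∅ := Set.not_nonempty_iff_eq_empty.1 (by
        rintro ⟨x, hx⟩; exact hne ⟨⟨x, hx⟩⟩)
      rw [this]
      exact Set.countable_empty.isSeparable
    let Φ : sphere (0 : StrongDual ℝ E) 1 → (ℕ → ℝ) := fun f j => (f : StrongDual ℝ E) (denseSeq E j)
    have : Nonempty (Set.range Φ) := ⟨⟨_, hne.some, rfl⟩⟩
    let a := denseSeq (Set.range Φ)
    have ha : DenseRange a := denseRange_denseSeq _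
    have hch : ∀ n, ∃ f : sphere (0 : StrongDual ℝ E) 1, Φ f = a n := fun n => (a n).2
    choose h hh using hch
    refine ⟨Set.range fun n => (h n : StrongDual ℝ E), Set.countable_range _, fun f hf => ?_⟩
    have hf1 : ‖f‖ = 1 := mem_sphere_zero_iff_norm.1 hf
    -- a sequence converging to `Φ f`
    have hmem : (⟨Φ ⟨f, hf⟩, ⟨⟨f, hf⟩, rfl⟩⟩ : Set.range Φ) ∈ closure (Set.range a) := ha _
    obtain ⟨b, hb, hbt⟩ := mem_closure_iff_seq_limit.1 hmem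
    choose k hk using hb
    have hbt' : Tendsto (fun n => ((b n : Set.range Φ) : ℕ → ℝ)) atTop (𝓝 (Φ ⟨f, hf⟩)) :=
      (continuous_subtype_val.tendsto _).comp hbt
    rw [tendsto_pi_nhds] at hbt'
    have hpt : ∀ j, Tendsto (fun n => (h (k n) : StrongDual ℝ E) (denseSeq E j)) atTop
        (𝓝 (f (denseSeq E j))) := by
      intro j
      refine (hbt' j).congr fun n => ?_
      rw [← hk n, ← hh (k n)]
    have hn1 : ∀ n, ‖(h n : StrongDual ℝ E)‖ = 1 := fun n => mem_sphere_zero_iff_norm.1 (h n).2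
    have hlim := dual_kadec2 hLC f hf1 (fun n => (h (k n) : StrongDual ℝ E)) (fun n => hn1 _)
      (conv_of_dense (fun n => (h (k n) : StrongDual ℝ E)) f (fun n => (hn1 _).le) hf1.le hpt)
    refine mem_closure_of_tendsto (tendsto_iff_norm_sub_tendsto_zero.2 hlim)
      (Eventually.of_forall fun n => ⟨k n, rfl⟩)
  have hspan : (Submodule.span ℝ (sphere (0 : StrongDual ℝ E) 1) : Set (StrongDual ℝ E)) =
      Set.univ := by
    rw [Set.eq_univ_iff_forall]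
    intro f
    by_cases h0 : f = 0
    · rw [h0]; exact Submodule.zero_mem _
    · have hn : ‖f‖ ≠ 0 := norm_ne_zero_iff.2 h0
      have h1 : f = ‖f‖ • (‖f‖⁻¹ • f) := by rw [smul_smul, mul_inv_cancel₀ hn, one_smul]
      rw [h1]
      refine Submodule.smul_mem _ _ (Submodule.subset_span ?_)
      rw [mem_sphere_zero_iff_norm, norm_smul, norm_inv, norm_norm, inv_mul_cancel₀ hn]
  have h1 := hS.span (R := ℝ)
  rw [hspan] at h1
  exact isSeparable_univ_iff.1 h1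

/-- Baire category -/
theorem near_open_norm2 (G : Subgroup (E ≃ₗᵢ[ℝ] E))
    (hnor : ∀ (s T : E ≃ₗᵢ[ℝ] E), T ∈ G → s * T * s⁻¹ ∈ G) (hNM : NM2 G)
    (hsep : IsSeparable (ops (G : Set (E ≃ₗᵢ[ℝ] E))))
    (htr : ∀ x y : E, ‖x‖ = 1 → ‖y‖ = 1 → ∃ T : E ≃ₗᵢ[ℝ] E, T x = y) {κ : ℝ} (hκ : 0 < κ) :
    ∃ t : ℝ, 0 < t ∧ ∀ x y : E, ‖x‖ = 1 → ‖y‖ = 1 → ‖y - x‖ ≤ t → ∀ η : ℝ, 0 < η →
      ∃ T ∈ G, ‖T x - y‖ ≤ η ∧ ‖op T - 1‖ ≤ κ := by
  by_cases hne : ∃ x : E, ‖x‖ = 1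
  swap
  · exact ⟨1, one_pos, fun x y hx => absurd ⟨x, hx⟩ hne⟩
  obtain ⟨x0, hx0⟩ := hne
  -- countable cover
  obtain ⟨c, hcc, hcG⟩ := hsep
  have hcov : ∀ T ∈ G, ∃ a ∈ c, ‖op T - a‖ < κ / 4 := by
    intro T hT
    obtain ⟨a, ha, hd⟩ := Metric.mem_closure_iff.1 (hcG ⟨T, hT, rfl⟩) (κ / 4) (by positivity)
    exact ⟨a, ha, by rwa [dist_eq_norm] at hd⟩
  -- choose group elements near the members of `c`
  have hsel : ∀ a : E →L[ℝ] E, ∃ g : E ≃ₗᵢ[ℝ] E, g ∈ G ∧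
      ((∃ T ∈ G, ‖op T - a‖ < κ / 4) → ‖op g - a‖ < κ / 4) := by
    intro a
    by_cases h : ∃ T ∈ G, ‖op T - a‖ < κ / 4
    · obtain ⟨T, hT, h1⟩ := h
      exact ⟨T, hT, fun _ => h1⟩
    · exact ⟨1, G.one_mem, fun h' => absurd h' h⟩
  choose g hgG hg using hsel
  have hcov2 : ∀ T ∈ G, ∃ a ∈ c, ‖op ((g a)⁻¹ * T) - 1‖ ≤ κ / 2 := by
    intro T hT
    obtain ⟨a, ha, h1⟩ := hcov T hT
    refine ⟨a, ha, ?_⟩
    have h2 := hg a ⟨T, hT, h1⟩
    have h3 : op ((g a)⁻¹ * T) - 1 = op (g a)⁻¹ * (op T - op (g a)) := by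
      rw [mul_sub, op_inv_mul, op_mul]
    rw [h3, norm_op_mul_left]
    calc ‖op T - op (g a)‖ = ‖(op T - a) - (op (g a) - a)‖ := by congr 1; abel
      _ ≤ ‖op T - a‖ + ‖op (g a) - a‖ := norm_sub_le _ _
      _ ≤ κ / 2 := by linarith
  -- the orbit of `x0` under the neighbourhood
  set A : Set E := {z | ∃ T ∈ G, ‖op T - 1‖ ≤ κ / 2 ∧ T x0 = z} with hA
  have : Countable c := hcc.to_subtype
  set f : c → Set E := fun a => {y : E | (g (a : E →L[ℝ] E))⁻¹ (y : E) ∈ closure A} with hf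
  have hfc : ∀ a, IsClosed (f a) := fun a =>
    isClosed_closure.preimage ((g (a : E →L[ℝ] E))⁻¹ : E ≃ₗᵢ[ℝ] E).continuous
  obtain ⟨a, y0, r, hy0n, hr0, hr'⟩ := hNM x0 hx0 c f hfc fun T hTG => by
    obtain ⟨a, ha, h1⟩ := hcov2 T hTG
    refine ⟨⟨a, ha⟩, ?_⟩
    show (g a)⁻¹ (T x0) ∈ closure A
    exact subset_closure ⟨(g a)⁻¹ * T, G.mul_mem (G.inv_mem (hgG a)) hTG, h1, rfl⟩
  set h : E ≃ₗᵢ[ℝ] E := g (a : E →L[ℝ] E) with hh
  have hhG : h ∈ G := hgG _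
  have h0 : h⁻¹ (y0 : E) ∈ closure A := hr' y0 hy0n (by simpa using hr0)
  obtain ⟨b, ⟨v, hvG, hv1, rfl⟩, hv2⟩ := Metric.mem_closure_iff.1 h0 (r / 2) (by positivity)
  rw [dist_eq_norm] at hv2
  have happ : ∀ (s : E ≃ₗᵢ[ℝ] E) (z : E), s (s⁻¹ z) = z := fun s z => s.apply_symm_apply z
  have happ' : ∀ (s : E ≃ₗᵢ[ℝ] E) (z : E), s⁻¹ (s z) = z := fun s z => s.symm_apply_apply z
  have hn' : ∀ (s : E ≃ₗᵢ[ℝ] E) (z : E), ‖s⁻¹ z‖ = ‖z‖ := fun s z => s.symm.norm_map z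
  -- the case `x = x0`
  have key : ∀ y : E, ‖y‖ = 1 → ‖y - x0‖ ≤ r / 4 → ∀ η : ℝ, 0 < η →
      ∃ T ∈ G, ‖T x0 - y‖ ≤ η ∧ ‖op T - 1‖ ≤ κ := by
    intro y hy hyx η hη
    have h1 : v y ∈ closure A := by
      have h2 : h⁻¹ (h (v y)) ∈ closure A := by
        refine hr' _ (by rw [h.norm_map, v.norm_map, hy]) ?_
        have h3 : h (v y) - (y0 : E) = h (v (y - x0)) + h (v x0 - h⁻¹ y0) := by
          rw [← map_add, map_sub v]
          have : v y - v x0 + (v x0 - h⁻¹ (y0 : E)) = v y - h⁻¹ (y0 : E) := by abel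
          rw [this, map_sub h, happ]
        rw [h3]
        refine (norm_add_le _ _).trans_lt ?_
        rw [h.norm_map, h.norm_map, v.norm_map, norm_sub_rev (v x0)]
        linarith
      rwa [happ'] at h2
    obtain ⟨b, ⟨T, hTG, hT1, rfl⟩, hT2⟩ := Metric.mem_closure_iff.1 h1 η hη
    rw [dist_eq_norm] at hT2
    refine ⟨v⁻¹ * T, G.mul_mem (G.inv_mem hvG) hTG, ?_, ?_⟩
    · show ‖v⁻¹ (T x0) - y‖ ≤ η
      have h2 : v⁻¹ (T x0) - y = v⁻¹ (T x0 - v y) := by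
        rw [map_sub, happ']
      rw [h2, hn', norm_sub_rev]
      exact hT2.le
    · have h2 : op (v⁻¹ * T) - 1 = op v⁻¹ * ((op T - 1) - (op v - 1)) := by
        rw [sub_sub_sub_cancel_right, mul_sub, op_inv_mul, op_mul]
      rw [h2, norm_op_mul_left]
      refine (norm_sub_le _ _).trans ?_
      linarith
  refine ⟨r / 4, by positivity, fun x y hx hy hyx η hη => ?_⟩
  obtain ⟨s, hs⟩ := htr x0 x hx0 hx
  have hsx : s⁻¹ x = x0 := by rw [← hs, happ']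
  obtain ⟨T, hTG, hT1, hT2⟩ := key (s⁻¹ y) (by rw [hn', hy]) (by
    rw [← hsx, ← map_sub, hn']; exact hyx) η hη
  refine ⟨s * T * s⁻¹, hnor s T hTG, ?_, ?_⟩
  · show ‖s (T (s⁻¹ x)) - y‖ ≤ η
    rw [hsx]
    have h2 : s (T x0) - y = s (T x0 - s⁻¹ y) := by rw [map_sub, happ]
    rw [h2, s.norm_map]
    exact hT1
  · have h2 : op (s * T * s⁻¹) - 1 = op s * (op T - 1) * op s⁻¹ := by
      rw [mul_sub, sub_mul, mul_one, op_mul_inv, op_mul, op_mul]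
    rw [h2, norm_op_mul_right, norm_op_mul_left]
    exact hT2

/-- exact micro-transitivity in the operator norm -/
theorem open_norm2 [CompleteSpace E] (G : Subgroup (E ≃ₗᵢ[ℝ] E))
    (hcl : ∀ (T : ℕ → E ≃ₗᵢ[ℝ] E) (L : E ≃ₗᵢ[ℝ] E), (∀ n, T n ∈ G) →
      Tendsto (fun n => op (T n)) atTop (𝓝 (op L)) → L ∈ G)
    (hnear : ∀ κ : ℝ, 0 < κ → ∃ t : ℝ, 0 < t ∧ ∀ x y : E, ‖x‖ = 1 → ‖y‖ = 1 → ‖y - x‖ ≤ t →
      ∀ η : ℝ, 0 < η → ∃ T ∈ G, ‖T x - y‖ ≤ η ∧ ‖op T - 1‖ ≤ κ) {κ : ℝ} (hκ : 0 < κ) :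
    ∃ t : ℝ, 0 < t ∧ ∀ x y : E, ‖x‖ = 1 → ‖y‖ = 1 → ‖y - x‖ ≤ t →
      ∃ T ∈ G, T x = y := by
  have hpos : ∀ n : ℕ, 0 < κ / 2 / 2 ^ n := fun n => by positivity
  choose τ hτ0 hτ using fun n : ℕ => hnear _ (hpos n)
  refine ⟨τ 0, hτ0 0, fun x y hx hy hyx => ?_⟩
  -- one step
  have step : ∀ (n : ℕ) (S : E ≃ₗᵢ[ℝ] E), S ∈ G → ‖S x - y‖ ≤ τ n →
      ∃ S' : E ≃ₗᵢ[ℝ] E, S' ∈ G ∧ ‖S' x - y‖ ≤ τ (n + 1) ∧ ‖S' x - y‖ ≤ (1 / 2) ^ n ∧
        ‖op S' - op S‖ ≤ κ / 2 / 2 ^ n ∧ ‖op S'⁻¹ - op S⁻¹‖ ≤ κ / 2 / 2 ^ n := by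
    intro n S hS h1
    obtain ⟨k, hkG, hk1, hk2⟩ := hτ n (S x) y (by rw [S.norm_map, hx]) hy
      (by rw [norm_sub_rev]; exact h1) (min (τ (n + 1)) ((1 / 2) ^ n))
      (lt_min (hτ0 _) (by positivity))
    refine ⟨k * S, G.mul_mem hkG hS, hk1.trans (min_le_left _ _), hk1.trans (min_le_right _ _),
      ?_, ?_⟩
    · have h2 : op (k * S) - op S = (op k - 1) * op S := by
        rw [sub_mul, one_mul, op_mul]
      rw [h2, norm_op_mul_right]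
      exact hk2
    · have h2 : op (k * S)⁻¹ - op S⁻¹ = op S⁻¹ * (op k⁻¹ - 1) := by
        rw [mul_sub, mul_one, mul_inv_rev, op_mul]
      rw [h2, norm_op_mul_left, norm_op_inv_sub_one]
      exact hk2
  -- the sequence
  let P : ℕ → Type _ := fun n => {S : E ≃ₗᵢ[ℝ] E // S ∈ G ∧ ‖S x - y‖ ≤ τ n}
  let nx : ∀ n, P n → P (n + 1) := fun n S =>
    ⟨(step n S.1 S.2.1 S.2.2).choose, (step n S.1 S.2.1 S.2.2).choose_spec.1,
      (step n S.1 S.2.1 S.2.2).choose_spec.2.1⟩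
  have hnx : ∀ n (S : P n), ‖(nx n S).1 x - y‖ ≤ (1 / 2) ^ n ∧
      ‖op (nx n S).1 - op S.1‖ ≤ κ / 2 / 2 ^ n ∧
      ‖op (nx n S).1⁻¹ - op S.1⁻¹‖ ≤ κ / 2 / 2 ^ n := fun n S =>
    (step n S.1 S.2.1 S.2.2).choose_spec.2.2
  let p0 : P 0 := ⟨1, G.one_mem, by
    show ‖x - y‖ ≤ τ 0
    rw [norm_sub_rev]; exact hyx⟩
  let q : ∀ n, P n := fun n => Nat.rec p0 (fun n S => nx n S) n
  let T : ℕ → E ≃ₗᵢ[ℝ] E := fun n => (q n).1
  have hT0 : T 0 = 1 := rfl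
  have hq : ∀ n, q (n + 1) = nx n (q n) := fun n => rfl
  have hT : ∀ n, ‖T (n + 1) x - y‖ ≤ (1 / 2) ^ n ∧
      ‖op (T (n + 1)) - op (T n)‖ ≤ κ / 2 / 2 ^ n ∧
      ‖op (T (n + 1))⁻¹ - op (T n)⁻¹‖ ≤ κ / 2 / 2 ^ n := fun n => hnx n (q n)
  obtain ⟨L, hL⟩ := limit_isometry T κ (fun n => (hT n).2.1) (fun n => (hT n).2.2)
  have hp : ∀ x, Tendsto (fun n => T n x) atTop (𝓝 (L x)) := fun x =>
    ((ContinuousLinearMap.apply ℝ E x).continuous.tendsto (op L)).comp hL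
  refine ⟨L, hcl T L (fun n => (q n).2.1) hL, ?_⟩
  · have h1 : Tendsto (fun n => T (n + 1) x - y) atTop (𝓝 (L x - y)) :=
      ((hp x).comp (tendsto_add_atTop_nat 1)).sub_const y
    have h2 : Tendsto (fun n => T (n + 1) x - y) atTop (𝓝 0) := by
      refine squeeze_zero_norm (fun n => (hT n).1) ?_
      exact tendsto_pow_atTop_nhds_zero_of_lt_one (by norm_num) (by norm_num)
    exact sub_eq_zero.1 (tendsto_nhds_unique h1 h2)

lemma compactGroup_normal (s T : E ≃ₗᵢ[ℝ] E) (hT : T ∈ compactGroup E) :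
    s * T * s⁻¹ ∈ compactGroup E := by
  have hT : IsCompactOperator (fun z : E => T z - z) := hT
  have h1 : IsCompactOperator (fun z : E => op s (T z - z)) := hT.clm_comp _
  have h2 : IsCompactOperator (fun z : E => op s (T (s⁻¹ z) - s⁻¹ z)) := h1.comp_clm (op s⁻¹)
  have h3 : (fun z : E => (s * T * s⁻¹) z - z) = fun z : E => op s (T (s⁻¹ z) - s⁻¹ z) := by
    funext z
    rw [map_sub]
    have : op s (s⁻¹ z) = z := s.apply_symm_apply z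
    rw [this]
    rfl
  show IsCompactOperator (fun z : E => (s * T * s⁻¹) z - z)
  rw [h3]
  exact h2

lemma compactGroup_closed [CompleteSpace E] (T : ℕ → E ≃ₗᵢ[ℝ] E) (L : E ≃ₗᵢ[ℝ] E)
    (hT : ∀ n, T n ∈ compactGroup E) (hL : Tendsto (fun n => op (T n)) atTop (𝓝 (op L))) :
    L ∈ compactGroup E := by
  have h1 : IsCompactOperator (op L - 1 : E →L[ℝ] E) :=
    isCompactOperator_of_tendsto (hL.sub_const 1) (Eventually.of_forall fun n => hT n)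
  exact h1

/-- a transitive separable space in which the isometries `1 + compact` have a non-meagre orbit -/
theorem hilbert_of_nonmeagre [CompleteSpace E] [SeparableSpace E] (hE : ¬ FiniteDimensional ℝ E)
    (htr : ∀ x y : E, ‖x‖ = 1 → ‖y‖ = 1 → ∃ T : E ≃ₗᵢ[ℝ] E, T x = y)
    {x₀ : E} (hx₀ : ‖x₀‖ = 1)
    (hM : ¬ IsMeagre {z : sphere (0 : E) 1 | ∃ T ∈ compactGroup E, T x₀ = z}) :
    ∃ (H : Type) (instH : NormedAddCommGroup H) (instI : InnerProductSpace ℝ H)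
      (instC : CompleteSpace H), Nonempty (E ≃ₗᵢ[ℝ] H) := by
  have hrank : 1 < Module.rank ℝ E := by
    by_contra hcon
    apply hE
    have h1 : Module.rank ℝ E ≤ 1 := not_lt.1 hcon
    exact Module.rank_lt_aleph0_iff.1 (h1.trans_lt Cardinal.one_lt_aleph0)
  have hnm : NM3 (compactGroup E) := nm_of_nonmeagre _ compactGroup_normal htr hx₀ hM
  have hdual : SeparableSpace (StrongDual ℝ E) := dual_separable2 (lc_of_nm3 hrank htr hnm)
  have hsep : IsSeparable (ops (compactGroup E : Set (E ≃ₗᵢ[ℝ] E))) := compactGroup_separable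
  obtain ⟨t, ht, hloc⟩ := open_norm2 (compactGroup E) compactGroup_closed
    (fun κ hκ => near_open_norm2 (compactGroup E) compactGroup_normal (nm2_of_nm3 hnm) hsep htr hκ)
    one_pos
  exact hilbert_of_amenable hE (compactGroup E) hsep
    (fun x y hx hy => transitive_of_local hrank _ ht hloc hx hy)
    (amenable_of_compact _ fun T hT => hT)

end Pool.Agent.H509.Rot
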