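import Pool.Agent.H509.Rot.Fin
import Pool.Agent.H509.Rot.Defs

/-!
# Norm-separable transitive groups with a subgroup of countable index which is amenable, as a
topological group, modulo compact operators
-/

set_option autoImplicit false
set_option linter.unusedSectionVars false
set_option linter.unusedVariables false

namespace Pool.Agent.H509.Rot

open TopologicalSpace Metric Filter Topology Pool.Agent.H821.Rot

variable {E : Type} [NormedAddCommGroup E] [NormedSpace ℝ E]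

/-- a continuous equivalent quadratic form which is almost invariant under the isometries close to
`1 + compact` -/
theorem exists_formT [CompleteSpace E] [SeparableSpace E] (hE : ¬ FiniteDimensional ℝ E)
    (G : Subgroup (E ≃ₗᵢ[ℝ] E)) (hsep : IsSeparable (ops (G : Set (E ≃ₗᵢ[ℝ] E))))
    (htr : ∀ x y : E, ‖x‖ = 1 → ‖y‖ = 1 → ∃ T ∈ G, T x = y) :
    ∃ (c C : ℝ) (q : E → ℝ), 0 < c ∧ (∀ v, c * ‖v‖ ^ 2 ≤ q v ∧ q v ≤ C * ‖v‖ ^ 2) ∧
      (∀ u v, q (u + v) + q (u - v) = 2 * q u + 2 * q v) ∧ (∀ (r : ℝ) v, q (r • v) = r ^ 2 * q v) ∧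
      (∀ ε : ℝ, 0 < ε → ∃ δ : ℝ, 0 < δ ∧ ∀ (T : E ≃ₗᵢ[ℝ] E) (K : E →L[ℝ] E), IsCompactOperator K →
        ‖op T - 1 - K‖ ≤ δ → ∀ v, |q (T v) - q v| ≤ ε * ‖v‖ ^ 2) ∧
      ∀ v w, |q v - q w| ≤ C * ‖v - w‖ * (‖v‖ + ‖w‖) := by
  obtain ⟨H, i1, i2, i3, ⟨Φ⟩⟩ := hilbertian G hsep htr
  have htr' : ∀ x y : E, ‖x‖ = 1 → ‖y‖ = 1 → ∃ T : E ≃ₗᵢ[ℝ] E, T x = y := fun x y hx hy => by
    obtain ⟨T, -, h⟩ := htr x y hx hy
    exact ⟨T, h⟩
  obtain ⟨c, C, f, A, hc, hA, -⟩ := Pool.Agent.Y278.Rot.hessian_field Φ htr'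
  have hopen : ∀ κ : ℝ, 0 < κ → ∃ t : ℝ, 0 < t ∧ ∀ x y : E, ‖x‖ = 1 → ‖y‖ = 1 → ‖y - x‖ ≤ t →
      ∃ T : E ≃ₗᵢ[ℝ] E, T x = y ∧ ‖op T - 1‖ ≤ κ := fun κ hκ => open_norm G hsep htr hκ
  -- the unit vectors
  choose x hx1 hx2 using exists_unit_ker hE
  have : (atTop : Filter (Finset (StrongDual ℝ E))).NeBot := inferInstance
  set U : Ultrafilter (Finset (StrongDual ℝ E)) := Ultrafilter.of atTop with hU
  have hw : ∀ g : StrongDual ℝ E, ∀ᶠ s in (U : Filter (Finset (StrongDual ℝ E))), g (x s) = 0 := by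
    intro g
    have h1 : ∀ᶠ s in (atTop : Filter (Finset (StrongDual ℝ E))), g (x s) = 0 := by
      filter_upwards [eventually_ge_atTop ({g} : Finset (StrongDual ℝ E))] with s hs
      exact hx2 s g (hs (Finset.mem_singleton_self g))
    exact h1.filter_mono (Ultrafilter.of_le atTop)
  have hC0 : 0 ≤ C := by
    have h1 := (hA (x ∅) (hx1 ∅)).2.1 (x ∅)
    rw [hx1] at h1
    linarith [h1.1, h1.2]
  have hlow : ∀ s w, c * ‖w‖ ^ 2 ≤ A (x s) w w := fun s w => ((hA _ (hx1 s)).2.1 w).1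
  have hup : ∀ s w, A (x s) w w ≤ C * ‖w‖ ^ 2 := fun s w => ((hA _ (hx1 s)).2.1 w).2
  have hbd : ∀ s (u v : E), |A (x s) u v| ≤ C * ‖u‖ * ‖v‖ := fun s =>
    form_bound (hA _ (hx1 s)).1 (fun w => le_trans (by positivity) (hlow s w)) (hup s) hC0
  -- the limits
  have hlim : ∀ v, ∃ l : ℝ, Tendsto (fun s => A (x s) v v) U (𝓝 l) := by
    intro v
    obtain ⟨l, -, hl⟩ := (isCompact_Icc (a := c * ‖v‖ ^ 2) (b := C * ‖v‖ ^ 2)).ultrafilter_le_nhds
      (U.map fun s => A (x s) v v) (by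
        rw [le_principal_iff, Ultrafilter.mem_coe, Ultrafilter.mem_map]
        exact Filter.univ_mem' fun s => ⟨hlow s v, hup s v⟩)
    exact ⟨l, hl⟩
  choose q hq using hlim
  refine ⟨c, C, q, hc, fun v => ⟨ge_of_tendsto' (hq v) fun s => hlow s v,
    le_of_tendsto' (hq v) fun s => hup s v⟩, fun u v => ?_, fun r v => ?_, fun ε₀ hε₀ => ?_,
    fun v w => ?_⟩
  · refine tendsto_nhds_unique ((hq (u + v)).add (hq (u - v))) ?_
    refine (((hq u).const_mul 2).add ((hq v).const_mul 2)).congr fun s => ?_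
    simp only [map_add, map_sub, _root_.add_apply, _root_.sub_apply]
    ring
  · refine tendsto_nhds_unique (hq (r • v)) ?_
    refine ((hq v).const_mul (r ^ 2)).congr fun s => ?_
    simp only [map_smul, _root_.smul_apply, smul_eq_mul]
    ring
  · -- almost invariance
    set ε : ℝ := ε₀ / (2 * C + 1) with hεdef
    have hε : 0 < ε := by positivity
    have hεC : 2 * C * ε ≤ ε₀ := by
      rw [hεdef, mul_div_assoc', div_le_iff₀ (by positivity)]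
      nlinarith
    obtain ⟨t, ht, hop⟩ := hopen ε hε
    refine ⟨t / 2, by positivity, fun T K hK hTK v => ?_⟩
    have hnull : Tendsto (fun s => ‖K (x s)‖) U (𝓝 0) :=
      compact_null U x (fun s => (hx1 s).le) hw K hK
    have h1 : ∀ᶠ s in (U : Filter (Finset (StrongDual ℝ E))),
        |A (x s) (T v) (T v) - A (x s) v v| ≤ 2 * C * ‖v‖ ^ 2 * ε := by
      filter_upwards [hnull.eventually (gt_mem_nhds (by positivity : (0 : ℝ) < t / 2))] with s hs0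
      have hs : ‖T (x s) - x s‖ ≤ t := by
        have h5 : T (x s) - x s = (op T - 1 - K) (x s) + K (x s) := by
          show T (x s) - x s = (T (x s) - x s - K (x s)) + K (x s)
          abel
        rw [h5]
        refine (norm_add_le _ _).trans ?_
        have h6 := (op T - 1 - K).le_opNorm (x s)
        rw [hx1, mul_one] at h6
        linarith
      -- `T⁻¹ (x s)` is close to `x s`
      have hTx : ‖T.symm (x s)‖ = 1 := by rw [T.symm.norm_map, hx1]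
      obtain ⟨S, hS1, hS2⟩ := hop (x s) (T.symm (x s)) (hx1 s) hTx (by
        have h2 : T.symm (x s) - x s = - T.symm (T (x s) - x s) := by
          rw [map_sub, T.symm_apply_apply]; abel
        rw [h2, norm_neg, T.symm.norm_map]
        exact hs)
      have e1 : A (x s) (T v) (T v) = A (T.symm (x s)) v v := by
        have := (hA _ hTx).2.2.2 T v v
        rwa [T.apply_symm_apply] at this
      set w : E := S.symm v with hw'
      have e2 : A (T.symm (x s)) v v = A (x s) w w := by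
        have := (hA _ (hx1 s)).2.2.2 S w w
        rwa [hS1, hw', S.apply_symm_apply] at this
      have hwv : ‖w - v‖ ≤ ε * ‖v‖ := by
        have h3 : ‖w - v‖ = ‖S v - v‖ := by
          have h4 : w - v = - S.symm (S v - v) := by
            rw [map_sub, S.symm_apply_apply]; abel
          rw [h4, norm_neg, S.symm.norm_map]
        rw [h3]
        exact (norm_op_apply_sub S v).trans (mul_le_mul_of_nonneg_right hS2 (norm_nonneg _))
      have hwn : ‖w‖ = ‖v‖ := S.symm.norm_map v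
      have e3 : A (x s) w w - A (x s) v v = A (x s) (w - v) w + A (x s) v (w - v) := by
        simp only [map_sub, _root_.sub_apply]
        ring
      rw [e1, e2, e3]
      calc |A (x s) (w - v) w + A (x s) v (w - v)|
          ≤ |A (x s) (w - v) w| + |A (x s) v (w - v)| := abs_add_le _ _
        _ ≤ C * ‖w - v‖ * ‖w‖ + C * ‖v‖ * ‖w - v‖ := add_le_add (hbd _ _ _) (hbd _ _ _)
        _ = 2 * C * ‖v‖ * ‖w - v‖ := by rw [hwn]; ring
        _ ≤ 2 * C * ‖v‖ * (ε * ‖v‖) := mul_le_mul_of_nonneg_left hwv (by positivity)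
        _ = 2 * C * ‖v‖ ^ 2 * ε := by ring
    have h7 := le_of_tendsto ((hq (T v)).sub (hq v)).abs h1
    refine h7.trans ?_
    have h8 : 2 * C * ε * ‖v‖ ^ 2 ≤ ε₀ * ‖v‖ ^ 2 := mul_le_mul_of_nonneg_right hεC (by positivity)
    calc 2 * C * ‖v‖ ^ 2 * ε = 2 * C * ε * ‖v‖ ^ 2 := by ring
      _ ≤ _ := h8
  · refine le_of_tendsto' ((hq v).sub (hq w)).abs fun s => ?_
    have e3 : A (x s) v v - A (x s) w w = A (x s) (v - w) v + A (x s) w (v - w) := by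
      simp only [map_sub, _root_.sub_apply]
      ring
    rw [e3]
    calc |A (x s) (v - w) v + A (x s) w (v - w)|
        ≤ |A (x s) (v - w) v| + |A (x s) w (v - w)| := abs_add_le _ _
      _ ≤ C * ‖v - w‖ * ‖v‖ + C * ‖w‖ * ‖v - w‖ := add_le_add (hbd _ _ _) (hbd _ _ _)
      _ = C * ‖v - w‖ * (‖v‖ + ‖w‖) := by ring

theorem hilbert_of_top_amenable [CompleteSpace E] [SeparableSpace E]
    (hE : ¬ FiniteDimensional ℝ E) (G H : Subgroup (E ≃ₗᵢ[ℝ] E))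
    (hsep : IsSeparable (ops (G : Set (E ≃ₗᵢ[ℝ] E))))
    (htr : ∀ x y : E, ‖x‖ = 1 → ‖y‖ = 1 → ∃ T ∈ G, T x = y)
    (g : ℕ → (E ≃ₗᵢ[ℝ] E)) (hg : ∀ T ∈ G, ∃ n, T * (g n)⁻¹ ∈ H)
    (ham : TopAmenableModCompact H) :
    ∃ (H : Type) (instH : NormedAddCommGroup H) (instI : InnerProductSpace ℝ H)
      (instC : CompleteSpace H), Nonempty (E ≃ₗᵢ[ℝ] H) := by
  have hrank : 1 < Module.rank ℝ E := by
    by_contra hcon
    apply hE
    have h1 : Module.rank ℝ E ≤ 1 := not_lt.1 hcon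
    exact Module.rank_lt_aleph0_iff.1 (h1.trans_lt Cardinal.one_lt_aleph0)
  obtain ⟨c, C, q, hc, hq, hpar, hsm, huc, hlip⟩ := exists_formT hE G hsep htr
  obtain ⟨m, madd, msmul, mpos, mone, minv⟩ := ham
  obtain ⟨e, he, -⟩ := exists_unit_ker hE ∅
  have hC0 : 0 ≤ C := by
    have h1 := hq e
    rw [he] at h1
    linarith [h1.1, h1.2]
  -- orbit functions
  set φ : E → H → ℝ := fun v g => q ((g : E ≃ₗᵢ[ℝ] E)⁻¹ v) with hφ
  have hn : ∀ (g : E ≃ₗᵢ[ℝ] E) (v : E), ‖g⁻¹ v‖ = ‖v‖ := fun g v => g.symm.norm_map v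
  have hadm : ∀ v, UCB H (φ v) := by
    intro v
    refine ⟨⟨C * ‖v‖ ^ 2, fun g => ?_⟩, fun ε hε => ?_⟩
    · have h1 := hq ((g : E ≃ₗᵢ[ℝ] E)⁻¹ v)
      rw [hn] at h1
      rw [abs_le]
      have : 0 ≤ c * ‖v‖ ^ 2 := by positivity
      exact ⟨by linarith [h1.1, h1.2], h1.2⟩
    · obtain ⟨δ, hδ, huc⟩ := huc (ε / (‖v‖ ^ 2 + 1)) (by positivity)
      refine ⟨δ, hδ, fun S T K hK hST => ?_⟩
      -- `R = T⁻¹ S` is close to `1 + compact`
      show |q ((S : E ≃ₗᵢ[ℝ] E)⁻¹ v) - q ((T : E ≃ₗᵢ[ℝ] E)⁻¹ v)| ≤ ε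
      set R : E ≃ₗᵢ[ℝ] E := (T : E ≃ₗᵢ[ℝ] E)⁻¹ * S with hR
      have hRK : IsCompactOperator ((op (T : E ≃ₗᵢ[ℝ] E)⁻¹).comp K) :=
        hK.clm_comp (op (T : E ≃ₗᵢ[ℝ] E)⁻¹)
      have h1 : ‖op R - 1 - (op (T : E ≃ₗᵢ[ℝ] E)⁻¹).comp K‖ ≤ δ := by
        refine ContinuousLinearMap.opNorm_le_bound _ hδ.le fun x => ?_
        have h2 : (op R - 1 - (op (T : E ≃ₗᵢ[ℝ] E)⁻¹).comp K) x =
            (T : E ≃ₗᵢ[ℝ] E)⁻¹ ((S : E ≃ₗᵢ[ℝ] E) x - (T : E ≃ₗᵢ[ℝ] E) x - K x) := by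
          rw [map_sub, map_sub]
          have h3 : (T : E ≃ₗᵢ[ℝ] E)⁻¹ ((T : E ≃ₗᵢ[ℝ] E) x) = x :=
            (T : E ≃ₗᵢ[ℝ] E).symm_apply_apply x
          rw [h3]
          rfl
        rw [h2, hn]
        exact hST x
      have h2 := huc R _ hRK h1 ((S : E ≃ₗᵢ[ℝ] E)⁻¹ v)
      have h3 : R ((S : E ≃ₗᵢ[ℝ] E)⁻¹ v) = (T : E ≃ₗᵢ[ℝ] E)⁻¹ v := by
        show (T : E ≃ₗᵢ[ℝ] E)⁻¹ ((S : E ≃ₗᵢ[ℝ] E) ((S : E ≃ₗᵢ[ℝ] E)⁻¹ v)) = _
        congr 1
        exact (S : E ≃ₗᵢ[ℝ] E).apply_symm_apply v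
      rw [h3, hn] at h2
      rw [abs_sub_comm]
      refine h2.trans ?_
      rw [div_mul_eq_mul_div, div_le_iff₀ (by positivity)]
      nlinarith
  have hone : UCB H (fun _ => 1) :=
    ⟨⟨1, fun _ => by norm_num⟩, fun ε hε => ⟨1, one_pos, fun _ _ _ _ _ => by simpa using hε.le⟩⟩
  have hcadm : ∀ r : ℝ, UCB H (fun _ => r) := fun r =>
    ⟨⟨|r|, fun _ => le_rfl⟩, fun ε hε => ⟨1, one_pos, fun _ _ _ _ _ => by simpa using hε.le⟩⟩
  have hadd : ∀ {φ ψ : H → ℝ}, UCB H φ → UCB H ψ → UCB H (fun T => φ T + ψ T) := by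
    rintro φ ψ ⟨⟨C1, h1⟩, h2⟩ ⟨⟨C2, h3⟩, h4⟩
    refine ⟨⟨C1 + C2, fun T => (abs_add_le _ _).trans (add_le_add (h1 T) (h3 T))⟩,
      fun ε hε => ?_⟩
    obtain ⟨d1, hd1, h5⟩ := h2 (ε / 2) (by positivity)
    obtain ⟨d2, hd2, h6⟩ := h4 (ε / 2) (by positivity)
    refine ⟨min d1 d2, lt_min hd1 hd2, fun S T K hK h => ?_⟩
    have h7 := h5 S T K hK fun x =>
      (h x).trans (mul_le_mul_of_nonneg_right (min_le_left _ _) (norm_nonneg _))
    have h8 := h6 S T K hK fun x =>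
      (h x).trans (mul_le_mul_of_nonneg_right (min_le_right _ _) (norm_nonneg _))
    show |φ S + ψ S - (φ T + ψ T)| ≤ ε
    have h9 : φ S + ψ S - (φ T + ψ T) = (φ S - φ T) + (ψ S - ψ T) := by ring
    rw [h9]
    refine (abs_add_le _ _).trans ?_
    linarith
  have hsmul : ∀ {φ : H → ℝ} (r : ℝ), UCB H φ → UCB H (fun T => r * φ T) := by
    rintro φ r ⟨⟨C1, h1⟩, h2⟩
    refine ⟨⟨|r| * C1, fun T => by
      rw [abs_mul]; exact mul_le_mul_of_nonneg_left (h1 T) (abs_nonneg _)⟩, fun ε hε => ?_⟩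
    obtain ⟨d1, hd1, h5⟩ := h2 (ε / (|r| + 1)) (by positivity)
    refine ⟨d1, hd1, fun S T K hK h => ?_⟩
    have h7 := h5 S T K hK h
    show |r * φ S - r * φ T| ≤ ε
    rw [← mul_sub, abs_mul]
    have h8 : |r| * |φ S - φ T| ≤ |r| * (ε / (|r| + 1)) :=
      mul_le_mul_of_nonneg_left h7 (abs_nonneg _)
    refine h8.trans ?_
    rw [mul_div_assoc', div_le_iff₀ (by positivity)]
    nlinarith [abs_nonneg r]
  have mconst : ∀ r : ℝ, m (fun _ => r) = r := by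
    intro r
    have := msmul r (fun _ => 1) hone
    simp only [mul_one, mone] at this
    exact this
  -- monotonicity
  have mmono : ∀ {φ ψ : H → ℝ} (r : ℝ), UCB H φ → UCB H ψ → (∀ T, φ T - ψ T ≤ r) →
      m φ - m ψ ≤ r := by
    intro φ ψ r hφ hψ h
    have h1 := mpos (fun T => ψ T + (r + (-1) * φ T)) (hadd hψ (hadd (hcadm r) (hsmul (-1) hφ)))
      fun T => by have := h T; linarith
    rw [madd _ _ hψ (hadd (hcadm r) (hsmul (-1) hφ)), madd _ _ (hcadm r) (hsmul (-1) hφ), mconst,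
      msmul (-1) _ hφ] at h1
    linarith
  set Q : E → ℝ := fun v => m (φ v) with hQ
  have hQlow : ∀ v, c * ‖v‖ ^ 2 ≤ Q v := by
    intro v
    have h1 := mmono (φ := fun _ => c * ‖v‖ ^ 2) (ψ := φ v) 0 (hcadm _) (hadm v) fun T => by
      have h2 := (hq ((T : E ≃ₗᵢ[ℝ] E)⁻¹ v)).1
      rw [hn] at h2
      show c * ‖v‖ ^ 2 - q ((T : E ≃ₗᵢ[ℝ] E)⁻¹ v) ≤ 0
      linarith
    rw [mconst] at h1
    show c * ‖v‖ ^ 2 ≤ m (φ v)
    linarith
  have hQpar : ∀ u v, Q (u + v) + Q (u - v) = 2 * Q u + 2 * Q v := by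
    intro u v
    have h1 := madd _ _ (hadm (u + v)) (hadm (u - v))
    have h2 := madd _ _ (hsmul 2 (hadm u)) (hsmul 2 (hadm v))
    rw [msmul 2 _ (hadm u), msmul 2 _ (hadm v)] at h2
    show m (φ (u + v)) + m (φ (u - v)) = 2 * m (φ u) + 2 * m (φ v)
    rw [← h1, ← h2]
    congr 1
    funext T
    show q ((T : E ≃ₗᵢ[ℝ] E)⁻¹ (u + v)) + q ((T : E ≃ₗᵢ[ℝ] E)⁻¹ (u - v)) =
      2 * q ((T : E ≃ₗᵢ[ℝ] E)⁻¹ u) + 2 * q ((T : E ≃ₗᵢ[ℝ] E)⁻¹ v)
    rw [map_add, map_sub, hpar]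
  have hQsm : ∀ (r : ℝ) v, Q (r • v) = r ^ 2 * Q v := by
    intro r v
    have h1 := msmul (r ^ 2) _ (hadm v)
    show m (φ (r • v)) = r ^ 2 * m (φ v)
    rw [← h1]
    congr 1
    funext T
    show q ((T : E ≃ₗᵢ[ℝ] E)⁻¹ (r • v)) = r ^ 2 * q ((T : E ≃ₗᵢ[ℝ] E)⁻¹ v)
    rw [map_smul, hsm]
  have hQinv : ∀ T ∈ H, ∀ v, Q (T v) = Q v := by
    intro T hT v
    have h1 := minv (⟨T, hT⟩⁻¹ : H) (φ v) (hadm v)
    show m (φ (T v)) = m (φ v)
    rw [← h1]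
    congr 1
  have hQlip : ∀ v w, |Q v - Q w| ≤ C * ‖v - w‖ * (‖v‖ + ‖w‖) := by
    have key : ∀ v w, Q v - Q w ≤ C * ‖v - w‖ * (‖v‖ + ‖w‖) := by
      intro v w
      refine mmono _ (hadm v) (hadm w) fun T => ?_
      have h1 := hlip ((T : E ≃ₗᵢ[ℝ] E)⁻¹ v) ((T : E ≃ₗᵢ[ℝ] E)⁻¹ w)
      rw [← map_sub, hn, hn, hn] at h1
      exact (le_abs_self _).trans h1
    intro v w
    rw [abs_le]
    have h1 := key w v
    rw [norm_sub_rev, add_comm ‖w‖] at h1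
    exact ⟨by linarith, key v w⟩
  -- the form is constant on the sphere
  have hconst : ∀ v : E, ‖v‖ = 1 → Q v = Q e := by
    intro v hv
    have h0 : |Q e - Q v| ≤ 0 := by
      refine le_of_forall_pos_le_add fun ε hε => ?_
      obtain ⟨T, hT, hTe⟩ := almost_transitive hrank G H htr g hg he hv
        (by positivity : (0 : ℝ) < ε / (2 * C + 1))
      have h1 := hQlip (T e) v
      rw [hQinv T hT e, T.norm_map, he, hv] at h1
      have h2 : C * ‖T e - v‖ * (1 + 1) ≤ ε := by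
        have h3 : 2 * C * ‖T e - v‖ ≤ 2 * C * (ε / (2 * C + 1)) :=
          mul_le_mul_of_nonneg_left hTe.le (by positivity)
        have h4 : 2 * C * (ε / (2 * C + 1)) ≤ ε := by
          rw [mul_div_assoc', div_le_iff₀ (by positivity)]
          nlinarith
        linarith
      linarith
    have h4 := abs_nonpos_iff.1 h0
    linarith
  have hq2 : ∀ v, Q v = Q e * ‖v‖ ^ 2 := by
    intro v
    by_cases hv : v = 0
    · rw [hv, norm_zero]
      have := hQsm 0 e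
      rw [zero_smul] at this
      rw [this]; ring
    · have hn : ‖v‖ ≠ 0 := norm_ne_zero_iff.2 hv
      have h2 := hconst (‖v‖⁻¹ • v) (by rw [norm_smul, norm_inv, norm_norm, inv_mul_cancel₀ hn])
      rw [hQsm] at h2
      have h3 : Q v = ‖v‖ ^ 2 * ((‖v‖⁻¹) ^ 2 * Q v) := by field_simp
      rw [h3, h2]; ring
  exact hilbert_of_form ⟨e, he⟩ G htr Q hc hQlow hQpar hQsm fun T hT v => by
    rw [hq2, hq2 v, T.norm_map]

end Pool.Agent.H509.Rot
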